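import Pool.Agent.DAE.X.NAbs

/-!
# Extension of derivations along algebraic extensions and fraction fields (characteristic 0)
-/

set_option autoImplicit false

namespace Pool.Agent.DAE

/-- derivations extend along formally étale homomorphisms -/
private theorem dExt_etale {S T : Type*} [CommRing S] [CommRing T] [Algebra S T]
    [Algebra.FormallyEtale S T] (d : Derivation ℤ S T) :
    ∃ D : Derivation ℤ T T, ∀ s, D (algebraMap S T s) = d s := by
  have hb := KaehlerDifferential.isBaseChange_of_formallyEtale ℤ S T
  refine ⟨(hb.lift d.liftKaehlerDifferential).compDer (KaehlerDifferential.D ℤ T), fun s => ?_⟩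
  change hb.lift d.liftKaehlerDifferential (KaehlerDifferential.D ℤ T (algebraMap S T s)) = d s
  rw [← KaehlerDifferential.map_D ℤ ℤ S T s, hb.lift_eq, Derivation.liftKaehlerDifferential_comp_D]

/-- a derivation of a field of characteristic zero extends to every algebraic extension -/
theorem exists_deriv_ext {F L : Type*} [Field F] [CharZero F] [Field L] [Algebra F L]
    [Algebra.IsAlgebraic F L] (D : Derivation ℤ F F) :
    ∃ D' : Derivation ℤ L L, ∀ x, D' (algebraMap F L x) = algebraMap F L (D x) := by
  have := Algebra.FormallyEtale.of_isSeparable F L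
  obtain ⟨D', hD'⟩ := dExt_etale ((Algebra.linearMap F L).compDer D)
  exact ⟨D', fun x => hD' x⟩

/-- uniqueness: two derivations along a ring homomorphism `σ` into a field which agree on the
base field agree on algebraic elements -/
theorem deriv_ext_unique {F E L : Type*} [Field F] [CharZero F] [Field E] [Field L] [Algebra F E]
    (σ : E →+* L) (d₁ d₂ : E → L)
    (ha₁ : ∀ x y, d₁ (x + y) = d₁ x + d₁ y) (ha₂ : ∀ x y, d₂ (x + y) = d₂ x + d₂ y)
    (hm₁ : ∀ x y, d₁ (x * y) = σ x * d₁ y + σ y * d₁ x)
    (hm₂ : ∀ x y, d₂ (x * y) = σ x * d₂ y + σ y * d₂ x)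
    (h : ∀ x : F, d₁ (algebraMap F E x) = d₂ (algebraMap F E x)) (x : E) (hx : IsAlgebraic F x) :
    d₁ x = d₂ x := by
  set δ : E → L := fun y => d₁ y - d₂ y with hδ
  have hadd : ∀ y z, δ (y + z) = δ y + δ z := fun y z => by
    simp only [hδ, ha₁, ha₂]
    ring
  have hmul : ∀ y z, δ (y * z) = σ y * δ z + σ z * δ y := fun y z => by
    simp only [hδ, hm₁, hm₂]
    ring
  have hF : ∀ a : F, δ (algebraMap F E a) = 0 := fun a => by
    simp only [hδ, h, sub_self]
  have hpow : ∀ n : ℕ, δ (x ^ (n + 1)) = σ ((n + 1 : ℕ) * x ^ n) * δ x := by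
    intro n
    induction n with
    | zero => simp
    | succ n ih =>
      rw [pow_succ, hmul, ih]
      simp only [map_mul, map_pow, map_natCast]
      push_cast
      ring
  have hp : ∀ p : Polynomial F, δ (Polynomial.aeval x p) =
      σ (Polynomial.aeval x (Polynomial.derivative p)) * δ x := by
    intro p
    induction p using Polynomial.induction_on' with
    | add p q hp hq => rw [map_add, hadd, hp, hq, map_add, map_add, map_add, add_mul]
    | monomial n a =>
      rw [Polynomial.aeval_monomial, hmul, hF, mul_zero, add_zero, Polynomial.derivative_monomial,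
        Polynomial.aeval_monomial]
      rcases n with _ | n
      · have h1 : δ (x ^ 0) = 0 := by
          have h2 := hF 1
          rwa [map_one, ← pow_zero x] at h2
        rw [h1]
        simp
      · rw [hpow, Nat.add_sub_cancel]
        simp only [map_mul, map_pow, map_natCast]
        ring
  have hsep : (minpoly F x).Separable :=
    (minpoly.irreducible hx.isIntegral).separable
  have h1 := hp (minpoly F x)
  have h0 : δ 0 = 0 := by
    have h2 := hF 0
    rwa [map_zero] at h2
  rw [minpoly.aeval, h0] at h1
  have h2 : Polynomial.aeval x (Polynomial.derivative (minpoly F x)) ≠ 0 :=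
    hsep.aeval_derivative_ne_zero (minpoly.aeval F x)
  have h3 : δ x = 0 :=
    (mul_eq_zero.1 h1.symm).resolve_left ((map_ne_zero_iff σ σ.injective).2 h2)
  exact sub_eq_zero.1 h3

/-- a derivation from a domain to its field of fractions extends to the field of fractions -/
theorem exists_deriv_frac {A K : Type*} [CommRing A] [IsDomain A] [Field K] [Algebra A K]
    [IsFractionRing A K] (d : A → K) (ha : ∀ x y, d (x + y) = d x + d y)
    (hm : ∀ x y, d (x * y) = algebraMap A K x * d y + algebraMap A K y * d x) :
    ∃ D : Derivation ℤ K K, ∀ a, D (algebraMap A K a) = d a := by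
  have := Algebra.FormallyEtale.of_isLocalization (Rₘ := K) (nonZeroDivisors A)
  let d' : Derivation ℤ A K := Derivation.mk' (AddMonoidHom.mk' d ha).toIntLinearMap fun x y => by
    rw [Algebra.smul_def, Algebra.smul_def]
    exact hm x y
  obtain ⟨D, hD⟩ := dExt_etale d'
  exact ⟨D, fun a => hD a⟩

end Pool.Agent.DAE
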