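import Pool.Agent.DAE.X.NAbs

/-!
# Extension of an absolute value to the field of fractions
-/

set_option autoImplicit false

namespace Pool.Agent.DAE

/-- an absolute value of a domain extends to the field of fractions -/
theorem NAbs.exists_frac {A K : Type*} [CommRing A] [IsDomain A] [Field K] [Algebra A K]
    [IsFractionRing A K] {v : A → ℝ} (hv : NAbs v) :
    ∃ w : K → ℝ, NAbs w ∧ ∀ a, w (algebraMap A K a) = v a := by
  have hinj : Function.Injective (algebraMap A K) := IsFractionRing.injective A K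
  have hex : ∀ x : K, ∃ r : ℝ, ∀ a b : A, b ≠ 0 → x = algebraMap A K a / algebraMap A K b →
      r = v a / v b := by
    intro x
    obtain ⟨a, b, hb, rfl⟩ := IsFractionRing.div_surjective (A := A) x
    have hb0 : b ≠ 0 := nonZeroDivisors.ne_zero hb
    refine ⟨v a / v b, fun a' b' hb' h => ?_⟩
    have h1 : algebraMap A K b ≠ 0 := (map_ne_zero_iff _ hinj).2 hb0
    have h2 : algebraMap A K b' ≠ 0 := (map_ne_zero_iff _ hinj).2 hb'
    rw [div_eq_div_iff h1 h2, ← map_mul, ← map_mul] at h
    have h3 := congrArg v (hinj h)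
    rw [hv.mul, hv.mul] at h3
    rw [div_eq_div_iff (hv.ne_zero hb0) (hv.ne_zero hb'), h3]
  choose w hw using hex
  have hdiv : ∀ a b : A, b ≠ 0 → w (algebraMap A K a / algebraMap A K b) = v a / v b :=
    fun a b hb => hw _ a b hb rfl
  have halg : ∀ a : A, w (algebraMap A K a) = v a := by
    intro a
    have h := hdiv a 1 one_ne_zero
    rwa [map_one, div_one, hv.one, div_one] at h
  refine ⟨w, ⟨fun x => ?_, fun x hx => ?_, ?_, fun x y => ?_, fun x y => ?_, fun n hn => ?_⟩, halg⟩
  · obtain ⟨a, b, hb, rfl⟩ := IsFractionRing.div_surjective (A := A) x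
    rw [hdiv _ _ (nonZeroDivisors.ne_zero hb)]
    exact div_nonneg (hv.nonneg a) (hv.nonneg b)
  · obtain ⟨a, b, hb, rfl⟩ := IsFractionRing.div_surjective (A := A) x
    have hb0 : b ≠ 0 := nonZeroDivisors.ne_zero hb
    rw [hdiv _ _ hb0, div_eq_zero_iff] at hx
    rw [hv.eq_zero a (hx.resolve_right (hv.ne_zero hb0)), map_zero, zero_div]
  · have h := halg 0
    rwa [map_zero, hv.zero] at h
  · obtain ⟨a, b, hb, rfl⟩ := IsFractionRing.div_surjective (A := A) x
    obtain ⟨a', b', hb', rfl⟩ := IsFractionRing.div_surjective (A := A) y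
    have hb0 : b ≠ 0 := nonZeroDivisors.ne_zero hb
    have hb0' : b' ≠ 0 := nonZeroDivisors.ne_zero hb'
    rw [div_mul_div_comm, ← map_mul, ← map_mul, hdiv _ _ (mul_ne_zero hb0 hb0'), hdiv _ _ hb0,
      hdiv _ _ hb0', hv.mul, hv.mul, div_mul_div_comm]
  · obtain ⟨a, b, hb, rfl⟩ := IsFractionRing.div_surjective (A := A) x
    obtain ⟨a', b', hb', rfl⟩ := IsFractionRing.div_surjective (A := A) y
    have hb0 : b ≠ 0 := nonZeroDivisors.ne_zero hb
    have hb0' : b' ≠ 0 := nonZeroDivisors.ne_zero hb'
    have h1 : algebraMap A K b ≠ 0 := (map_ne_zero_iff _ hinj).2 hb0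
    have h2 : algebraMap A K b' ≠ 0 := (map_ne_zero_iff _ hinj).2 hb0'
    have p1 := hv.pos hb0
    have p2 := hv.pos hb0'
    have h3 : algebraMap A K a / algebraMap A K b + algebraMap A K a' / algebraMap A K b' =
        algebraMap A K (a * b' + b * a') / algebraMap A K (b * b') := by
      rw [div_add_div _ _ h1 h2]
      simp only [map_mul, map_add]
    rw [h3, hdiv _ _ (mul_ne_zero hb0 hb0'), hdiv _ _ hb0, hdiv _ _ hb0', hv.mul,
      div_le_iff₀ (mul_pos p1 p2)]
    refine (hv.add _ _).trans ?_
    rw [hv.mul, hv.mul, max_mul_of_nonneg _ _ (mul_pos p1 p2).le]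
    apply le_of_eq
    congr 1
    · field_simp
    · field_simp
  · have h := halg n
    rwa [map_natCast, hv.nat n hn] at h

/-- two absolute values of the field of fractions which agree on the domain are equal -/
theorem NAbs.frac_unique {A K : Type*} [CommRing A] [Field K] [Algebra A K]
    [IsFractionRing A K] {w w' : K → ℝ} (hw : NAbs w) (hw' : NAbs w')
    (h : ∀ a : A, w (algebraMap A K a) = w' (algebraMap A K a)) : w = w' := by
  funext x
  obtain ⟨a, b, -, rfl⟩ := IsFractionRing.div_surjective (A := A) x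
  rw [hw.div, hw'.div, h, h]

/-- inequalities on a domain pass to the field of fractions for derivations -/
theorem NAbs.deriv_frac {A K : Type*} [CommRing A] [Field K] [Algebra A K]
    [IsFractionRing A K] {w : K → ℝ} (hw : NAbs w) (D : Derivation ℤ K K) {c : ℝ}
    (h : ∀ a : A, w (D (algebraMap A K a)) ≤ c * w (algebraMap A K a)) :
    ∀ x, w (D x) ≤ c * w x := by
  intro x
  obtain ⟨a, b, hb, hx⟩ := IsFractionRing.div_surjective (A := A) x
  have hb0 : algebraMap A K b ≠ 0 := by
    intro h0
    have h1 := IsLocalization.map_units K (⟨b, hb⟩ : nonZeroDivisors A)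
    rw [show algebraMap A K ((⟨b, hb⟩ : nonZeroDivisors A) : A) = 0 from h0] at h1
    exact not_isUnit_zero h1
  have h1 : x * algebraMap A K b = algebraMap A K a := by
    rw [← hx, div_mul_cancel₀ _ hb0]
  have h2 : algebraMap A K b * D x = D (algebraMap A K a) - x * D (algebraMap A K b) := by
    rw [← h1, D.leibniz, smul_eq_mul, smul_eq_mul]
    ring
  have h3 : w (algebraMap A K b) * w (D x) ≤ c * w (algebraMap A K a) := by
    rw [← hw.mul, h2]
    refine (hw.sub _ _).trans (max_le (h a) ?_)
    rw [hw.mul]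
    calc w x * w (D (algebraMap A K b)) ≤ w x * (c * w (algebraMap A K b)) :=
          mul_le_mul_of_nonneg_left (h b) (hw.nonneg x)
      _ = c * w (algebraMap A K a) := by
          rw [← h1, hw.mul]
          ring
  have p := hw.pos hb0
  rw [← h1, hw.mul] at h3
  refine le_of_mul_le_mul_left ?_ p
  calc w (algebraMap A K b) * w (D x) ≤ c * (w x * w (algebraMap A K b)) := h3
    _ = w (algebraMap A K b) * (c * w x) := by ring

end Pool.Agent.DAE
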