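import Pool.Agent.DAE.X.Closure
import Pool.Agent.DAE.X.Embed

/-!
# The tame derivation lemma
-/

set_option autoImplicit false

namespace Pool.Agent.DAE

open Polynomial

/-- an absolute value extends to every algebraic extension -/
theorem NAbs.exists_ext {F E : Type*} [Field F] [Field E] [Algebra F E]
    [Algebra.IsAlgebraic F E] {v : F → ℝ} (hv : NAbs v) :
    ∃ u : E → ℝ, NAbs u ∧ ∀ x, u (algebraMap F E x) = v x := by
  obtain ⟨Ω, hF, hA, hAlg, w, hw, hwv, -⟩ := hv.exists_closure
  let σ : E →ₐ[F] Ω := IsAlgClosed.lift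
  refine ⟨fun x => w (σ x), hw.comp (σ : E →+* Ω) (σ : E →+* Ω).injective, fun x => ?_⟩
  change w (σ (algebraMap F E x)) = v x
  rw [AlgHom.commutes, hwv]

private theorem tame_poly {F E : Type*} [Field F] [Field E] [Algebra F E]
    (D : Derivation ℤ E E) (DF : Derivation ℤ F F)
    (hD : ∀ x, D (algebraMap F E x) = algebraMap F E (DF x)) (K : IntermediateField F E) {x : E}
    (hx : x ∈ K) (P : F[X]) : ∃ y ∈ K, D (aeval x P) = y + aeval x (derivative P) * D x := by
  induction P using Polynomial.induction_on' with
  | add p q hp hq =>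
    obtain ⟨y, hy, h1⟩ := hp
    obtain ⟨z, hz, h2⟩ := hq
    refine ⟨y + z, add_mem hy hz, ?_⟩
    rw [map_add, map_add, map_add, map_add, h1, h2]
    ring
  | monomial n a =>
    refine ⟨x ^ n * algebraMap F E (DF a), mul_mem (pow_mem hx n) (K.algebraMap_mem _), ?_⟩
    rw [aeval_monomial, D.leibniz, D.leibniz_pow, hD, derivative_monomial, aeval_monomial,
      map_mul, map_natCast]
    simp only [smul_eq_mul, nsmul_eq_mul]
    ring

private theorem tame_mem {F E : Type*} [Field F] [CharZero F] [Field E] [Algebra F E]
    (D : Derivation ℤ E E) (DF : Derivation ℤ F F)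
    (hD : ∀ x, D (algebraMap F E x) = algebraMap F E (DF x)) {x : E} (hx : IsIntegral F x)
    {y : E} (hy : y ∈ IntermediateField.adjoin F {x}) : D y ∈ IntermediateField.adjoin F {x} := by
  have hxm : x ∈ IntermediateField.adjoin F {x} := IntermediateField.mem_adjoin_simple_self F x
  have hDx : D x ∈ IntermediateField.adjoin F {x} := by
    obtain ⟨z, hz, h1⟩ := tame_poly D DF hD (IntermediateField.adjoin F {x}) hxm (minpoly F x)
    have h2 : aeval x (derivative (minpoly F x)) ≠ 0 :=
      (minpoly.irreducible hx).separable.aeval_derivative_ne_zero (minpoly.aeval F x)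
    rw [minpoly.aeval, map_zero] at h1
    have h3 : aeval x (derivative (minpoly F x)) ∈ IntermediateField.adjoin F {x} :=
      IntermediateField.algebra_adjoin_le_adjoin F {x} (Polynomial.aeval_mem_adjoin_singleton F x)
    have h4 : D x = -z / aeval x (derivative (minpoly F x)) := by
      rw [eq_div_iff h2]
      linear_combination -h1
    rw [h4]
    exact div_mem (neg_mem hz) h3
  induction hy using IntermediateField.adjoin_induction with
  | mem y hy =>
    rw [Set.mem_singleton_iff.1 hy]
    exact hDx
  | algebraMap a =>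
    rw [hD]
    exact IntermediateField.algebraMap_mem _ _
  | add y z _ _ h1 h2 =>
    rw [map_add]
    exact add_mem h1 h2
  | inv y hy h1 =>
    rw [D.leibniz_inv]
    simp only [smul_eq_mul]
    exact mul_mem (neg_mem (pow_mem (inv_mem hy) 2)) h1
  | mul y z hy hz h1 h2 =>
    rw [D.leibniz]
    exact add_mem (mul_mem hy h2) (mul_mem hz h1)

/-- **The tame derivation lemma** for an arbitrary extension of an absolute value of residue
characteristic zero -/
theorem tame {F E : Type*} [Field F] [Field E] [Algebra F E] [Algebra.IsAlgebraic F E]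
    {u : E → ℝ} (hu : NAbs u) (D : Derivation ℤ E E) (DF : Derivation ℤ F F)
    (hD : ∀ x, D (algebraMap F E x) = algebraMap F E (DF x)) {c : ℝ}
    (hc : ∀ x : F, u (algebraMap F E (DF x)) ≤ c * u (algebraMap F E x)) :
    ∀ x, u (D x) ≤ c * u x := by
  intro x
  have hx : IsIntegral F x := Algebra.IsIntegral.isIntegral x
  have hv : NAbs fun a : F => u (algebraMap F E a) := hu.comp (algebraMap F E)
    (algebraMap F E).injective
  have hchar : CharZero F := hv.charZero
  have hfin : FiniteDimensional F (IntermediateField.adjoin F {x}) :=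
    IntermediateField.adjoin.finiteDimensional hx
  obtain ⟨Ω, hF, hA, hAlg, w, hw, hwv, hext⟩ := hv.exists_closure
  obtain ⟨D', hD', hD'c⟩ := hext DF c hc
  have hu' : NAbs fun y : IntermediateField.adjoin F {x} => u y :=
    hu.comp (algebraMap (IntermediateField.adjoin F {x}) E)
      (algebraMap (IntermediateField.adjoin F {x}) E).injective
  obtain ⟨σ, hσ⟩ := exists_embedding (F := F) (E := IntermediateField.adjoin F {x}) (Ω := Ω)
    hw hu' fun a => by
      rw [hwv]
      rfl
  have key : ∀ y : IntermediateField.adjoin F {x},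
      σ ⟨D y, tame_mem D DF hD hx y.2⟩ = D' (σ y) := by
    intro y
    refine deriv_ext_unique (F := F) (σ : IntermediateField.adjoin F {x} →+* Ω)
      (fun y => σ ⟨D y, tame_mem D DF hD hx y.2⟩) (fun y => D' (σ y)) ?_ ?_ ?_ ?_ ?_ y
      (Algebra.IsAlgebraic.isAlgebraic y)
    · intro y z
      rw [← map_add]
      congr 1
      apply Subtype.ext
      exact map_add D _ _
    · intro y z
      rw [map_add, map_add]
    · intro y z
      change _ = σ y * _ + σ z * _
      rw [← map_mul, ← map_mul, ← map_add]
      congr 1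
      apply Subtype.ext
      exact D.leibniz _ _
    · intro y z
      rw [map_mul]
      exact D'.leibniz _ _
    · intro a
      have h1 : (⟨D (algebraMap F (IntermediateField.adjoin F {x}) a),
          tame_mem D DF hD hx (Subtype.mem _)⟩ : IntermediateField.adjoin F {x}) =
          algebraMap F (IntermediateField.adjoin F {x}) (DF a) := Subtype.ext (hD a)
      change σ ⟨D (algebraMap F (IntermediateField.adjoin F {x}) a), _⟩ = D' (σ _)
      rw [h1, AlgHom.commutes, AlgHom.commutes, hD']
  have hxm : x ∈ IntermediateField.adjoin F {x} := IntermediateField.mem_adjoin_simple_self F x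
  have h1 := key ⟨x, hxm⟩
  have h2 := hσ ⟨D x, tame_mem D DF hD hx hxm⟩
  have h3 := hσ ⟨x, hxm⟩
  have h4 : u (D x) = w (σ ⟨D x, tame_mem D DF hD hx hxm⟩) := h2.symm
  have h5 : w (σ ⟨x, hxm⟩) = u x := h3
  rw [h4, h1, ← h5]
  exact hD'c _

end Pool.Agent.DAE
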