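import Mathlib

/-!
# A finite family of homomorphisms to the reals, one of which is small at every point
-/

set_option autoImplicit false

namespace Pool.Agent.DAE

private lemma approxHom_core {ι : Type*} [Fintype ι] (u : ι → ι → ℝ) (B : ℝ)
    (hu : ∀ i, 2 * B < |u i i|)
    (h : ∀ e : ι → Fin (Fintype.card ι + 1), ∃ i, |∑ j, ((e j : ℕ) : ℝ) * u i j| ≤ B) :
    False := by
  classical
  choose g hg using h
  let F : (ι → Fin (Fintype.card ι + 1)) →
      (Σ i : ι, ({j : ι // j ≠ i} → Fin (Fintype.card ι + 1))) :=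
    fun e => ⟨g e, fun j => e j.1⟩
  have hF : Function.Injective F := by
    intro e e' hee
    have h1 : g e = g e' := congrArg Sigma.fst hee
    have h2 : ∀ j, j ≠ g e → e j = e' j := by
      intro j hj
      have hj' : j ≠ g e' := h1 ▸ hj
      have key : ∀ (x y : Σ i : ι, ({j : ι // j ≠ i} → Fin (Fintype.card ι + 1))), x = y →
          ∀ (j : ι) (hx : j ≠ x.1) (hy : j ≠ y.1), x.2 ⟨j, hx⟩ = y.2 ⟨j, hy⟩ := by
        intro x y hxy j hx hy
        subst hxy
        rfl
      exact key _ _ hee j hj hj'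
    have h3 : e (g e) = e' (g e) := by
      by_contra hne
      have e1 := hg e
      have e2 := hg e'
      rw [← h1] at e2
      set i := g e with hi
      have hdiff : (∑ j, ((e j : ℕ) : ℝ) * u i j) - (∑ j, ((e' j : ℕ) : ℝ) * u i j)
          = (((e i : ℕ) : ℝ) - ((e' i : ℕ) : ℝ)) * u i i := by
        rw [← Finset.sum_sub_distrib]
        rw [Finset.sum_eq_single i]
        · ring
        · intro j _ hj
          rw [h2 j hj]
          ring
        · intro hh
          exact absurd (Finset.mem_univ i) hh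
      have habs : |(((e i : ℕ) : ℝ) - ((e' i : ℕ) : ℝ)) * u i i| ≤ 2 * B := by
        rw [← hdiff]
        calc |(∑ j, ((e j : ℕ) : ℝ) * u i j) - (∑ j, ((e' j : ℕ) : ℝ) * u i j)|
            ≤ |∑ j, ((e j : ℕ) : ℝ) * u i j| + |∑ j, ((e' j : ℕ) : ℝ) * u i j| := abs_sub _ _
          _ ≤ 2 * B := by linarith
      have hone : (1 : ℝ) ≤ |((e i : ℕ) : ℝ) - ((e' i : ℕ) : ℝ)| := by
        have hne' : ((e i : ℕ) : ℤ) - ((e' i : ℕ) : ℤ) ≠ 0 := by
          intro h0
          apply hne
          apply Fin.ext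
          omega
        have := Int.one_le_abs hne'
        have h4 : ((1 : ℤ) : ℝ) ≤ ((|((e i : ℕ) : ℤ) - ((e' i : ℕ) : ℤ)| : ℤ) : ℝ) := by
          exact_mod_cast this
        rw [Int.cast_abs] at h4
        push_cast at h4
        exact h4
      rw [abs_mul] at habs
      have hi2 := hu i
      have hpos : 0 ≤ |u i i| := abs_nonneg _
      nlinarith
    funext j
    by_cases hj : j = g e
    · rw [hj]
      exact h3
    · exact h2 j hj
  have hcard := Fintype.card_le_of_injective F hF
  have hne : ∀ i : ι, Fintype.card {j : ι // j ≠ i} = Fintype.card ι - 1 := by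
    intro i
    simp
  rw [Fintype.card_sigma] at hcard
  simp only [Fintype.card_fun, Fintype.card_fin, hne, Finset.sum_const, Finset.card_univ,
    smul_eq_mul] at hcard
  rcases Nat.eq_zero_or_pos (Fintype.card ι) with h0 | h0
  · rw [h0] at hcard
    simp at hcard
  · obtain ⟨k, hk⟩ : ∃ k, Fintype.card ι = k + 1 := ⟨Fintype.card ι - 1, by omega⟩
    rw [hk] at hcard
    simp only [Nat.add_sub_cancel] at hcard
    have hp : 0 < (k + 1 + 1) ^ k := by positivity
    rw [pow_succ] at hcard
    nlinarith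

private lemma approxHom_one {M : Type*} [CommMonoid M] (χ : M → ℝ)
    (hχ : ∀ x y, χ (x * y) = χ x + χ y) : χ 1 = 0 := by
  have := hχ 1 1
  rw [one_mul] at this
  linarith

private lemma approxHom_pow {M : Type*} [CommMonoid M] (χ : M → ℝ)
    (hχ : ∀ x y, χ (x * y) = χ x + χ y) (x : M) (n : ℕ) : χ (x ^ n) = n * χ x := by
  induction n with
  | zero => simp [approxHom_one χ hχ]
  | succ n ih =>
    rw [pow_succ, hχ, ih]
    push_cast
    ring

private lemma approxHom_prod {M : Type*} [CommMonoid M] {ι : Type*} (χ : M → ℝ)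
    (hχ : ∀ x y, χ (x * y) = χ x + χ y) (s : Finset ι) (y : ι → M) (e : ι → ℕ) :
    χ (∏ j ∈ s, y j ^ e j) = ∑ j ∈ s, (e j : ℝ) * χ (y j) := by
  classical
  induction s using Finset.induction_on with
  | empty => simp [approxHom_one χ hχ]
  | insert a s ha ih =>
    rw [Finset.prod_insert ha, Finset.sum_insert ha, hχ, ih, approxHom_pow χ hχ]

private lemma approxHom_degReal {M : Type*} [CommMonoid M] (deg : M → ℕ)
    (hdeg : ∀ x y, deg (x * y) = deg x + deg y) :
    ∀ x y, (fun z => (deg z : ℝ)) (x * y) = (fun z => (deg z : ℝ)) x + (fun z => (deg z : ℝ)) y := by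
  intro x y
  simp only [hdeg]
  push_cast
  ring

private lemma approxHom_degProd {M : Type*} [CommMonoid M] {ι : Type*} [Fintype ι] (deg : M → ℕ)
    (hdeg : ∀ x y, deg (x * y) = deg x + deg y) (y : ι → M) (N : ℕ) (hy : ∀ i, deg (y i) ≤ N)
    (e : ι → Fin (Fintype.card ι + 1)) :
    deg (∏ j, y j ^ (e j : ℕ)) ≤ (Fintype.card ι) ^ 2 * N := by
  have h1 := approxHom_prod (fun z => (deg z : ℝ)) (approxHom_degReal deg hdeg) Finset.univ y
    (fun j => (e j : ℕ))
  have h2 : deg (∏ j, y j ^ (e j : ℕ)) = ∑ j, (e j : ℕ) * deg (y j) := by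
    have h3 : ((deg (∏ j, y j ^ (e j : ℕ)) : ℕ) : ℝ) = ((∑ j, (e j : ℕ) * deg (y j) : ℕ) : ℝ) := by
      push_cast
      exact h1
    exact_mod_cast h3
  rw [h2]
  calc ∑ j, (e j : ℕ) * deg (y j) ≤ ∑ _j : ι, Fintype.card ι * N := by
        apply Finset.sum_le_sum
        intro j _
        exact Nat.mul_le_mul (Nat.lt_succ_iff.mp (e j).2) (hy j)
    _ = (Fintype.card ι) ^ 2 * N := by
        rw [Finset.sum_const, Finset.card_univ, smul_eq_mul]
        ring

/-- **approximate covering lemma**: `M` is a commutative monoid with a degree, `χ i` finitely many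
homomorphisms to `ℝ`. If at every element some `χ i` is at most `a * deg` then some `χ i` is at
most `2 a m ^ 2 * deg` at all elements, `m` the number of homomorphisms. -/
theorem exists_small_hom {M : Type*} [CommMonoid M] {ι : Type*} [Fintype ι] [Nonempty ι]
    (deg : M → ℕ) (hdeg : ∀ x y, deg (x * y) = deg x + deg y) (χ : ι → M → ℝ)
    (hχ : ∀ i x y, χ i (x * y) = χ i x + χ i y)
    (h0 : ∀ i x, deg x = 0 → χ i x = 0) {a : ℝ} (ha : 0 ≤ a)
    (h : ∀ x, ∃ i, |χ i x| ≤ a * deg x) :
    ∃ i, ∀ x, |χ i x| ≤ 2 * a * (Fintype.card ι : ℝ) ^ 2 * deg x := by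
  classical
  by_contra hcon
  push Not at hcon
  choose x hx using hcon
  have hpos : ∀ i, 0 < deg (x i) := by
    intro i
    rcases Nat.eq_zero_or_pos (deg (x i)) with hd | hd
    · exfalso
      have := hx i
      rw [hd, h0 i (x i) hd] at this
      simp at this
    · exact hd
  set N := ∏ i, deg (x i) with hN
  have hNpos : 0 < N := Finset.prod_pos fun i _ => hpos i
  have hdvd : ∀ i, deg (x i) ∣ N := fun i => Finset.dvd_prod_of_mem _ (Finset.mem_univ i)
  choose n hn using hdvd
  have hnpos : ∀ i, 0 < n i := by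
    intro i
    rcases Nat.eq_zero_or_pos (n i) with hd | hd
    · have := hn i
      rw [hd] at this
      omega
    · exact hd
  have hdegy : ∀ i, deg (x i ^ n i) = N := by
    intro i
    have h1 := approxHom_pow (fun z => (deg z : ℝ)) (approxHom_degReal deg hdeg) (x i) (n i)
    have h2 : ((deg (x i ^ n i) : ℕ) : ℝ) = ((n i * deg (x i) : ℕ) : ℝ) := by
      push_cast
      exact h1
    have h3 : deg (x i ^ n i) = n i * deg (x i) := by exact_mod_cast h2
    rw [h3, hn i]
    ring
  apply approxHom_core (fun i j => χ i (x j ^ n j)) (a * ((Fintype.card ι : ℝ) ^ 2 * N))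
  · intro i
    rw [approxHom_pow (χ i) (hχ i), abs_mul, Nat.abs_cast]
    have h1 := hx i
    have h2 : (0 : ℝ) < n i := by exact_mod_cast hnpos i
    have h3 : (N : ℝ) = deg (x i) * n i := by
      have := hn i
      exact_mod_cast this
    rw [h3]
    calc 2 * (a * ((Fintype.card ι : ℝ) ^ 2 * ((deg (x i) : ℝ) * n i)))
        = n i * (2 * a * (Fintype.card ι : ℝ) ^ 2 * deg (x i)) := by ring
      _ < n i * |χ i (x i)| := by
        exact mul_lt_mul_of_pos_left h1 h2
  · intro e
    obtain ⟨i, hi⟩ := h (∏ j, (x j ^ n j) ^ (e j : ℕ))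
    refine ⟨i, ?_⟩
    rw [approxHom_prod (χ i) (hχ i)] at hi
    refine hi.trans ?_
    apply mul_le_mul_of_nonneg_left _ ha
    have := approxHom_degProd deg hdeg (fun j => x j ^ n j) N (fun i => (hdegy i).le) e
    exact_mod_cast this

/-- **exact version**: if at every element of degree at most `m ^ 2 * c` some `χ i` vanishes
then some `χ i` vanishes at all elements of degree at most `c`. -/
theorem exists_zero_hom {M : Type*} [CommMonoid M] {ι : Type*} [Fintype ι] [Nonempty ι]
    (deg : M → ℕ) (hdeg : ∀ x y, deg (x * y) = deg x + deg y) (χ : ι → M → ℝ)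
    (hχ : ∀ i x y, χ i (x * y) = χ i x + χ i y) {c : ℕ}
    (h : ∀ x, deg x ≤ (Fintype.card ι) ^ 2 * c → ∃ i, χ i x = 0) :
    ∃ i, ∀ x, deg x ≤ c → χ i x = 0 := by
  classical
  by_contra hcon
  push Not at hcon
  choose x hx hx0 using hcon
  apply approxHom_core (fun i j => χ i (x j)) 0
  · intro i
    simp only [mul_zero]
    exact abs_pos.mpr (hx0 i)
  · intro e
    obtain ⟨i, hi⟩ := h (∏ j, (x j) ^ (e j : ℕ)) (approxHom_degProd deg hdeg x c hx e)
    refine ⟨i, ?_⟩
    rw [approxHom_prod (χ i) (hχ i)] at hi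
    rw [hi]
    simp

end Pool.Agent.DAE
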