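import Pool.Agent.DAE.X.NAbs

/-!
# Root values of polynomials whose coefficients have nearly the same absolute values
-/

set_option autoImplicit false

namespace Pool.Agent.DAE

open Polynomial

/-- the term with index `i₀` dominates at the radius `r`, the other terms are smaller by powers of
`t` -/
private def ApproxRootGood {Ω : Type*} [Field Ω] (w : Ω → ℝ) (r t : ℝ) (P : Polynomial Ω)
    (i₀ : ℕ) : Prop :=
  P.coeff i₀ ≠ 0 ∧ ∀ i, w (P.coeff i) * r ^ i * t ^ ((i - i₀) + (i₀ - i)) ≤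
    w (P.coeff i₀) * r ^ i₀

private lemma approxRoot_lt {a M t : ℝ} {e : ℕ} (ha : 0 ≤ a) (hM : 0 < M) (ht : 1 < t)
    (he : 1 ≤ e) (h : a * t ^ e ≤ M) : a < M := by
  have h1 : t ≤ t ^ e := le_self_pow₀ ht.le (by omega)
  have h2 : a * t ≤ M := (mul_le_mul_of_nonneg_left h1 ha).trans h
  by_contra hcon
  push Not at hcon
  have h3 : 0 < a := hM.trans_le hcon
  have h4 : a < a * t := lt_mul_of_one_lt_right h3 ht
  linarith

private lemma approxRoot_C {Ω : Type*} [Field Ω] {w : Ω → ℝ} (hw : NAbs w) {r t : ℝ}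
    {c : Ω} (hc : c ≠ 0) : ApproxRootGood w r t (C c) 0 := by
  refine ⟨by rwa [coeff_C_zero], fun i => ?_⟩
  by_cases hi : i = 0
  · subst hi
    simp
  · rw [coeff_C, if_neg hi, hw.zero, zero_mul, zero_mul, coeff_C_zero, pow_zero, mul_one]
    exact hw.nonneg c

private lemma approxRoot_X_sub_C {Ω : Type*} [Field Ω] {w : Ω → ℝ} (hw : NAbs w) {r t : ℝ}
    (hr : 0 < r) (ht : 1 < t) {β : Ω} (hβ : t * r ≤ w β ∨ t * w β ≤ r) :
    ∃ i₀, ApproxRootGood w r t (X - C β) i₀ := by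
  have h0 : w ((X - C β).coeff 0) = w β := by
    rw [coeff_sub, coeff_X_zero, coeff_C_zero, zero_sub, hw.neg]
  have h1' : (X - C β).coeff 1 = 1 := by
    rw [coeff_sub, coeff_X_one, coeff_C, if_neg one_ne_zero, sub_zero]
  have h1 : w ((X - C β).coeff 1) = 1 := by rw [h1', hw.one]
  have h2 : ∀ i, i ≠ 0 → i ≠ 1 → w ((X - C β).coeff i) = 0 := by
    intro i hi0 hi1
    rw [coeff_sub, coeff_X, if_neg (Ne.symm hi1), coeff_C, if_neg hi0, sub_zero, hw.zero]
  rcases hβ with h | h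
  · have hβ0 : 0 < w β := lt_of_lt_of_le (mul_pos (by linarith) hr) h
    refine ⟨0, ?_, fun i => ?_⟩
    · intro h3
      rw [h3, hw.zero] at h0
      exact hβ0.ne h0
    · rw [h0, pow_zero, mul_one]
      by_cases hi0 : i = 0
      · subst hi0
        rw [h0]
        simp
      · by_cases hi1 : i = 1
        · subst hi1
          rw [h1]
          simpa [mul_comm] using h
        · rw [h2 i hi0 hi1, zero_mul, zero_mul]
          exact hβ0.le
  · refine ⟨1, ?_, fun i => ?_⟩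
    · rw [h1']
      exact one_ne_zero
    · rw [h1, one_mul, pow_one]
      by_cases hi0 : i = 0
      · subst hi0
        rw [h0]
        simpa [mul_comm] using h
      · by_cases hi1 : i = 1
        · subst hi1
          rw [h1]
          simp
        · rw [h2 i hi0 hi1, zero_mul, zero_mul]
          exact hr.le

private lemma approxRoot_mul {Ω : Type*} [Field Ω] {w : Ω → ℝ} (hw : NAbs w) {r t : ℝ}
    (hr : 0 < r) (ht : 1 < t) {P Q : Polynomial Ω} {i₀ j₀ : ℕ} (hP : ApproxRootGood w r t P i₀)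
    (hQ : ApproxRootGood w r t Q j₀) : ApproxRootGood w r t (P * Q) (i₀ + j₀) := by
  have ht0 : 0 < t := by linarith
  have hnnQ : ∀ i, 0 ≤ w (Q.coeff i) * r ^ i * t ^ ((i - j₀) + (j₀ - i)) := fun i =>
    mul_nonneg (mul_nonneg (hw.nonneg _) (pow_pos hr i).le) (pow_pos ht0 _).le
  have hposP : 0 < w (P.coeff i₀) * r ^ i₀ := mul_pos (hw.pos hP.1) (pow_pos hr _)
  have hposQ : 0 < w (Q.coeff j₀) * r ^ j₀ := mul_pos (hw.pos hQ.1) (pow_pos hr _)
  set M := w (P.coeff i₀) * r ^ i₀ * (w (Q.coeff j₀) * r ^ j₀) with hM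
  have hMpos : 0 < M := mul_pos hposP hposQ
  have key0 : ∀ i j, w (P.coeff i * Q.coeff j) * r ^ (i + j) *
      t ^ (((i - i₀) + (i₀ - i)) + ((j - j₀) + (j₀ - j))) ≤ M := by
    intro i j
    have e : w (P.coeff i * Q.coeff j) * r ^ (i + j) *
        t ^ (((i - i₀) + (i₀ - i)) + ((j - j₀) + (j₀ - j))) =
        w (P.coeff i) * r ^ i * t ^ ((i - i₀) + (i₀ - i)) *
          (w (Q.coeff j) * r ^ j * t ^ ((j - j₀) + (j₀ - j))) := by
      rw [hw.mul, pow_add r, pow_add t ((i - i₀) + (i₀ - i))]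
      ring
    rw [e]
    exact mul_le_mul (hP.2 i) (hQ.2 j) (hnnQ j) hposP.le
  have hnn : ∀ i j, 0 ≤ w (P.coeff i * Q.coeff j) * r ^ (i + j) := fun i j =>
    mul_nonneg (hw.nonneg _) (pow_pos hr _).le
  have key : ∀ i j, w (P.coeff i * Q.coeff j) * r ^ (i + j) *
      t ^ ((i + j - (i₀ + j₀)) + (i₀ + j₀ - (i + j))) ≤ M := by
    intro i j
    refine le_trans (mul_le_mul_of_nonneg_left ?_ (hnn i j)) (key0 i j)
    exact pow_le_pow_right₀ ht.le (by omega)
  have keylt : ∀ i j, ¬ (i = i₀ ∧ j = j₀) → w (P.coeff i * Q.coeff j) * r ^ (i + j) < M := by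
    intro i j hij
    exact approxRoot_lt (hnn i j) hMpos ht (by omega) (key0 i j)
  have hmain : w ((P * Q).coeff (i₀ + j₀)) * r ^ (i₀ + j₀) = M := by
    rw [coeff_mul]
    have h1 := hw.sum_eq_of_dominated (s := Finset.HasAntidiagonal.antidiagonal (i₀ + j₀))
      (f := fun x => P.coeff x.1 * Q.coeff x.2) (i := (i₀, j₀))
      (Finset.HasAntidiagonal.mem_antidiagonal.2 rfl) (by
        rintro ⟨i, j⟩ hx hne
        have hx' := Finset.HasAntidiagonal.mem_antidiagonal.1 hx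
        have h2 := keylt i j (fun h => hne (Prod.ext h.1 h.2))
        have h3 : w (P.coeff i₀ * Q.coeff j₀) * r ^ (i₀ + j₀) = M := by
          rw [hw.mul, pow_add, hM]
          ring
        change i + j = i₀ + j₀ at hx'
        rw [hx', ← h3] at h2
        exact lt_of_mul_lt_mul_right h2 (pow_pos hr _).le)
    rw [h1, hw.mul, pow_add, hM]
    ring
  refine ⟨?_, fun n => ?_⟩
  · intro h0
    rw [h0, hw.zero, zero_mul] at hmain
    exact hMpos.ne hmain
  · rw [hmain, coeff_mul, mul_assoc, ← le_div_iff₀ (mul_pos (pow_pos hr n) (pow_pos ht0 _))]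
    refine hw.sum_le (div_pos hMpos (mul_pos (pow_pos hr n) (pow_pos ht0 _))).le ?_
    rintro ⟨i, j⟩ hx
    have hx' : i + j = n := Finset.HasAntidiagonal.mem_antidiagonal.1 hx
    rw [le_div_iff₀ (mul_pos (pow_pos hr n) (pow_pos ht0 _)), ← mul_assoc, ← hx']
    exact key i j

private lemma approxRoot_prod {Ω : Type*} [Field Ω] {w : Ω → ℝ} (hw : NAbs w) {r t : ℝ}
    (hr : 0 < r) (ht : 1 < t) (s : Multiset Ω) (hs : ∀ β ∈ s, t * r ≤ w β ∨ t * w β ≤ r) :
    ∃ i₀, ApproxRootGood w r t (s.map (X - C ·)).prod i₀ := by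
  induction s using Multiset.induction_on with
  | empty =>
    rw [Multiset.map_zero, Multiset.prod_zero, ← C_1]
    exact ⟨0, approxRoot_C hw one_ne_zero⟩
  | cons β s ih =>
    rw [Multiset.map_cons, Multiset.prod_cons]
    obtain ⟨i₀, h1⟩ := approxRoot_X_sub_C hw hr ht (hs β (Multiset.mem_cons_self β s))
    obtain ⟨j₀, h2⟩ := ih fun γ hγ => hs γ (Multiset.mem_cons_of_mem hγ)
    exact ⟨i₀ + j₀, approxRoot_mul hw hr ht h1 h2⟩

private lemma approxRoot_choose {Ω : Type*} [Field Ω] {w : Ω → ℝ} (hw : NAbs w) {r Q : ℝ}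
    (hr : 0 < r) (s : Multiset Ω) (hs : ∀ β ∈ s, Q * r < w β ∨ Q * w β < r) :
    ∃ t, Q < t ∧ ∀ β ∈ s, t * r ≤ w β ∨ t * w β ≤ r := by
  induction s using Multiset.induction_on with
  | empty => exact ⟨Q + 1, by linarith, fun β hβ => absurd hβ (Multiset.notMem_zero β)⟩
  | cons β s ih =>
    obtain ⟨t, ht, hts⟩ := ih fun γ hγ => hs γ (Multiset.mem_cons_of_mem hγ)
    obtain ⟨t', ht', hβ⟩ : ∃ t', Q < t' ∧ ∀ t'' ≤ t', t'' * r ≤ w β ∨ t'' * w β ≤ r := by
      rcases hs β (Multiset.mem_cons_self β s) with h | h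
      · refine ⟨w β / r, by rwa [lt_div_iff₀ hr], fun t'' ht'' => Or.inl ?_⟩
        rwa [le_div_iff₀ hr] at ht''
      · rcases (hw.nonneg β).eq_or_lt with h0 | h0
        · refine ⟨Q + 1, by linarith, fun t'' _ => Or.inr ?_⟩
          rw [← h0, mul_zero]
          exact hr.le
        · refine ⟨r / w β, by rwa [lt_div_iff₀ h0], fun t'' ht'' => Or.inr ?_⟩
          rwa [le_div_iff₀ h0] at ht''
    refine ⟨min t t', lt_min ht ht', fun γ hγ => ?_⟩
    rcases Multiset.mem_cons.1 hγ with rfl | hγ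
    · exact hβ _ (min_le_right _ _)
    · rcases hts γ hγ with h | h
      · exact Or.inl ((mul_le_mul_of_nonneg_right (min_le_left _ _) hr.le).trans h)
      · exact Or.inr ((mul_le_mul_of_nonneg_right (min_le_left _ _) (hw.nonneg _)).trans h)

/-- **approximate Newton polygon lemma**: if the absolute values of the coefficients of `p` in `E`
and in `Ω` differ at most by the factor `q` then the absolute value of a root `x ∈ E` differs at
most by the factor `q ^ 2` from the absolute value of a root in `Ω`. (`p` need not have the same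
field of coefficients: `i`, `j` are arbitrary embeddings.) -/
theorem exists_root_value_approx {F E Ω : Type*} [Field F] [Field E] [Field Ω] [IsAlgClosed Ω]
    (i : F →+* E) (j : F →+* Ω) {w : Ω → ℝ} {u : E → ℝ} (hw : NAbs w) (hu : NAbs u)
    {p : F[X]} (hp : p ≠ 0) {q : ℝ} (hq : 1 ≤ q)
    (h : ∀ n, u (i (p.coeff n)) ≤ q * w (j (p.coeff n)) ∧
      w (j (p.coeff n)) ≤ q * u (i (p.coeff n)))
    {x : E} (hx0 : x ≠ 0) (hx : p.eval₂ i x = 0) :
    ∃ β : Ω, p.eval₂ j β = 0 ∧ w β ≤ q ^ 2 * u x ∧ u x ≤ q ^ 2 * w β := by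
  have hr : 0 < u x := hu.pos hx0
  have hq0 : 0 < q := by linarith
  by_contra hcon
  push Not at hcon
  have hpm : p.map j ≠ 0 := by
    rwa [Ne, Polynomial.map_eq_zero]
  obtain ⟨t, ht, hts⟩ := approxRoot_choose hw (Q := q ^ 2) hr (p.map j).roots (by
    intro β hβ
    have h1 : p.eval₂ j β = 0 := by
      rw [← eval_map]
      exact (mem_roots hpm).1 hβ
    by_cases h2 : q ^ 2 * u x < w β
    · exact Or.inl h2
    · exact Or.inr (hcon β h1 (not_lt.1 h2)))
  have ht1 : 1 < t := lt_of_le_of_lt (one_le_pow₀ hq) ht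
  obtain ⟨k₀, hk⟩ := approxRoot_prod hw hr ht1 (p.map j).roots hts
  have hgood : ApproxRootGood w (u x) t (p.map j) k₀ := by
    have h1 := approxRoot_mul hw hr ht1
      (approxRoot_C hw (leadingCoeff_ne_zero.2 hpm)) hk
    rw [zero_add, ← (IsAlgClosed.splits (p.map j)).eq_prod_roots] at h1
    exact h1
  obtain ⟨hk0, hk1⟩ := hgood
  simp only [coeff_map] at hk0 hk1
  have hpk : p.coeff k₀ ≠ 0 := fun h0 => hk0 (by rw [h0, map_zero])
  have hterm : ∀ n, u (i (p.coeff n) * x ^ n) = u (i (p.coeff n)) * u x ^ n := by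
    intro n
    rw [hu.mul, hu.pow]
  have hpos : 0 < u (i (p.coeff k₀)) * u x ^ k₀ :=
    mul_pos (hu.pos ((map_ne_zero i).2 hpk)) (pow_pos hr _)
  have hmem : k₀ ∈ Finset.range (p.natDegree + 1) := by
    rw [Finset.mem_range]
    by_contra hlt
    exact hpk (coeff_eq_zero_of_natDegree_lt (by omega))
  have h2 := hu.sum_eq_of_dominated (f := fun n => i (p.coeff n) * x ^ n) hmem (by
    intro n _ hn
    rw [hterm, hterm]
    have e1 : 1 ≤ (n - k₀) + (k₀ - n) := by omega
    have h3 : t ≤ t ^ ((n - k₀) + (k₀ - n)) := le_self_pow₀ ht1.le (by omega)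
    have h4 : w (j (p.coeff n)) * u x ^ n * t ≤ w (j (p.coeff k₀)) * u x ^ k₀ :=
      (mul_le_mul_of_nonneg_left h3
        (mul_nonneg (hw.nonneg _) (pow_pos hr n).le)).trans (hk1 n)
    have h5 : u (i (p.coeff n)) * u x ^ n ≤ q * (w (j (p.coeff n)) * u x ^ n) := by
      rw [← mul_assoc]
      exact mul_le_mul_of_nonneg_right (h n).1 (pow_pos hr n).le
    have h6 : w (j (p.coeff k₀)) * u x ^ k₀ ≤ q * (u (i (p.coeff k₀)) * u x ^ k₀) := by
      rw [← mul_assoc]
      exact mul_le_mul_of_nonneg_right (h k₀).2 (pow_pos hr k₀).le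
    have h7 : u (i (p.coeff n)) * u x ^ n * t ≤ q ^ 2 * (u (i (p.coeff k₀)) * u x ^ k₀) := by
      calc u (i (p.coeff n)) * u x ^ n * t ≤ q * (w (j (p.coeff n)) * u x ^ n) * t :=
            mul_le_mul_of_nonneg_right h5 (by linarith)
        _ = q * (w (j (p.coeff n)) * u x ^ n * t) := by ring
        _ ≤ q * (w (j (p.coeff k₀)) * u x ^ k₀) := mul_le_mul_of_nonneg_left h4 hq0.le
        _ ≤ q * (q * (u (i (p.coeff k₀)) * u x ^ k₀)) := mul_le_mul_of_nonneg_left h6 hq0.le
        _ = q ^ 2 * (u (i (p.coeff k₀)) * u x ^ k₀) := by ring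
    have h8 : q ^ 2 * (u (i (p.coeff k₀)) * u x ^ k₀) <
        u (i (p.coeff k₀)) * u x ^ k₀ * t := by
      rw [mul_comm]
      exact mul_lt_mul_of_pos_left ht hpos
    exact lt_of_mul_lt_mul_right (h7.trans_lt h8) (by linarith))
  rw [← eval₂_eq_sum_range, hx, hu.zero, hterm] at h2
  exact hpos.ne h2

end Pool.Agent.DAE
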