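import Pool.Agent.DAE.X.NAbs

/-!
# A bounded derivation extends to the completion
-/

set_option autoImplicit false

namespace Pool.Agent.DAE

universe u

private lemma DCompl_ultra {M : Type u} [NormedField M] (h : ∀ x y : M, ‖x + y‖ ≤ max ‖x‖ ‖y‖) :
    IsUltrametricDist (UniformSpace.Completion M) := by
  refine IsUltrametricDist.isUltrametricDist_of_forall_norm_add_le_max_norm fun x y => ?_
  induction x, y using UniformSpace.Completion.induction_on₂ with
  | hp => exact isClosed_le (by fun_prop) (by fun_prop)
  | ih a b =>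
    rw [← UniformSpace.Completion.coe_add, UniformSpace.Completion.norm_coe,
      UniformSpace.Completion.norm_coe, UniformSpace.Completion.norm_coe]
    exact h a b

private lemma DCompl_ext {M : Type u} [NormedField M] (D : M →+ M) (c : ℝ)
    (hD : ∀ x, ‖D x‖ ≤ c * ‖x‖) (hL : ∀ x y, D (x * y) = x * D y + y * D x) :
    ∃ g : UniformSpace.Completion M →+ UniformSpace.Completion M,
      (∀ x : M, g (x : UniformSpace.Completion M) = (D x : UniformSpace.Completion M)) ∧
        (∀ x y, g (x * y) = x * g y + y * g x) ∧ ∀ x, ‖g x‖ ≤ c * ‖x‖ := by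
  let g : NormedAddGroupHom (UniformSpace.Completion M) (UniformSpace.Completion M) :=
    (D.mkNormedAddGroupHom c hD).completion
  have hg : ∀ x : M, g (x : UniformSpace.Completion M) = (D x : UniformSpace.Completion M) :=
    fun x => NormedAddGroupHom.completion_coe _ x
  have hc : Continuous g := g.continuous
  have hL' : ∀ x y : UniformSpace.Completion M, g (x * y) = x * g y + y * g x := by
    intro x y
    induction x, y using UniformSpace.Completion.induction_on₂ with
    | hp => exact isClosed_eq (by fun_prop) (by fun_prop)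
    | ih a b =>
      rw [← UniformSpace.Completion.coe_mul, hg, hg, hg, hL, UniformSpace.Completion.coe_add,
        UniformSpace.Completion.coe_mul, UniformSpace.Completion.coe_mul]
  refine ⟨g.toAddMonoidHom, hg, hL', fun x => ?_⟩
  show ‖g x‖ ≤ c * ‖x‖
  induction x using UniformSpace.Completion.induction_on with
  | hp => exact isClosed_le (by fun_prop) (by fun_prop)
  | ih a =>
    rw [hg, UniformSpace.Completion.norm_coe, UniformSpace.Completion.norm_coe]
    exact hD a

private lemma DCompl_der {C : Type u} [NontriviallyNormedField C] (g : C →+ C)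
    (hL : ∀ x y, g (x * y) = x * g y + y * g x) : ∃ D' : Derivation ℤ C C, ∀ x, D' x = g x :=
  ⟨Derivation.mk' (g.toIntLinearMap : C →ₗ[ℤ] C) hL, fun _ => rfl⟩

/-- the completion of a valued field, with bounded derivations extended -/
theorem NAbs.exists_completion {F : Type u} [Field F] {v : F → ℝ} (hv : NAbs v)
    (hnt : ∃ x, 1 < v x) :
    ∃ (C : Type u) (nC : NontriviallyNormedField C) (_ : CompleteSpace C)
      (_ : IsUltrametricDist C) (i : F →+* C),
      (∀ x, ‖i x‖ = v x) ∧
      ∀ (D : Derivation ℤ F F) (c : ℝ), (∀ x, v (D x) ≤ c * v x) →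
        ∃ D' : Derivation ℤ C C, (∀ x, D' (i x) = i (D x)) ∧ ∀ x, ‖D' x‖ ≤ c * ‖x‖ := by
  let w := hv.toAbs
  let M := WithAbs w
  let e : M ≃+* F := WithAbs.equiv w
  have hne : ∀ x : M, ‖x‖ = v (e x) := fun x => rfl
  have hM : ∀ x y : M, ‖x + y‖ ≤ max ‖x‖ ‖y‖ := by
    intro x y
    rw [hne, hne, hne, map_add]
    exact hv.add _ _
  let C := UniformSpace.Completion M
  have hC : IsUltrametricDist C := DCompl_ultra hM
  have hnt' : ∃ x : C, 1 < ‖x‖ := by
    obtain ⟨x, hx⟩ := hnt
    refine ⟨((e.symm x : M) : C), ?_⟩
    rw [UniformSpace.Completion.norm_coe, hne, e.apply_symm_apply]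
    exact hx
  let nC : NontriviallyNormedField C :=
    { (inferInstance : NormedField C) with non_trivial := hnt' }
  let i : F →+* C := (UniformSpace.Completion.coeRingHom (α := M)).comp (e.symm : F →+* M)
  have hi : ∀ x : F, i x = ((e.symm x : M) : C) := fun x => rfl
  refine ⟨C, nC, inferInstanceAs (CompleteSpace (UniformSpace.Completion M)), hC, i, ?_, ?_⟩
  · intro x
    rw [hi]
    refine (UniformSpace.Completion.norm_coe _).trans ?_
    rw [hne, e.apply_symm_apply]
  · intro D c hD
    let DM : M →+ M := (e.symm : F →+ M).comp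
      ((D.toLinearMap.toAddMonoidHom : F →+ F).comp (e : M →+ F))
    have hDM : ∀ x : M, DM x = e.symm (D (e x)) := fun x => rfl
    obtain ⟨g, h1, hL, h2⟩ := DCompl_ext DM c
      (by
        intro x
        rw [hne, hne, hDM, e.apply_symm_apply]
        exact hD _)
      (by
        intro x y
        rw [hDM, hDM, hDM, map_mul, D.leibniz, map_add, smul_eq_mul, smul_eq_mul, map_mul,
          map_mul, e.symm_apply_apply, e.symm_apply_apply])
    obtain ⟨D', hD'⟩ := @DCompl_der C nC g hL
    refine ⟨D', fun x => (hD' _).trans ?_, fun x => ?_⟩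
    swap
    · rw [hD']
      exact h2 x
    have h3 := h1 (e.symm x)
    rw [hDM, e.apply_symm_apply] at h3
    exact h3

end Pool.Agent.DAE
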