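import Pool.Agent.DAE.X.NAbs

/-!
# The tame derivation lemma for a Galois invariant absolute value
-/

set_option autoImplicit false

namespace Pool.Agent.DAE

open Polynomial

section Core

variable {K Ω : Type*} [Field K] [Field Ω] [Algebra K Ω] {w : Ω → ℝ}

/-- a monic polynomial with unexpectedly small value at `B` -/
private def InvGd (w : Ω → ℝ) (B : Ω) (R : K[X]) : Prop :=
  R.Monic ∧ (∀ j, w (algebraMap K Ω (R.coeff j)) * w B ^ j ≤ w B ^ R.natDegree) ∧
    w (aeval B R) < w B ^ R.natDegree

/-- cutting above the largest dominant index -/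
private lemma inv_cut (hw : NAbs w) {B : Ω} (hB : B ≠ 0) (P : K[X]) {i : ℕ}
    (hi : w (aeval B P) < w (algebraMap K Ω (P.coeff i)) * w B ^ i) :
    ∃ R : K[X], InvGd w B R ∧ R.natDegree ≤ P.natDegree := by
  classical
  have hb : 0 < w B := hw.pos hB
  set u : ℕ → ℝ := fun j => w (algebraMap K Ω (P.coeff j)) * w B ^ j with hu
  have hu0 : ∀ j, 0 ≤ u j := fun j => mul_nonneg (hw.nonneg _) (pow_nonneg hb.le _)
  have hipos : 0 < u i := lt_of_le_of_lt (hw.nonneg _) hi
  have hsupp : ∀ j, 0 < u j → j ∈ P.support := by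
    intro j hj
    rw [mem_support_iff]
    intro h0
    simp only [hu, h0, map_zero, hw.zero, zero_mul, lt_self_iff_false] at hj
  obtain ⟨j0, hj0, hmax⟩ := Finset.exists_max_image P.support u ⟨i, hsupp i hipos⟩
  have hmax' : ∀ j, u j ≤ u j0 := by
    intro j
    rcases (hu0 j).eq_or_lt with h | h
    · rw [← h]
      exact hu0 j0
    · exact hmax j (hsupp j h)
  set s : Finset ℕ := P.support.filter fun j => u j = u j0 with hs
  have hsne : s.Nonempty := ⟨j0, Finset.mem_filter.2 ⟨hj0, rfl⟩⟩
  obtain ⟨e, he, hemax⟩ : ∃ e ∈ s, ∀ j ∈ s, j ≤ e := ⟨s.max' hsne, s.max'_mem hsne,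
    fun j hj => s.le_max' j hj⟩
  have heu : u e = u j0 := (Finset.mem_filter.1 he).2
  have hes : e ∈ P.support := (Finset.mem_filter.1 he).1
  have hle : ∀ j, u j ≤ u e := fun j => heu ▸ hmax' j
  have hlt : ∀ j, e < j → u j < u e := by
    intro j hj
    refine lt_of_le_of_ne (hle j) fun h => ?_
    have h1 : 0 < u j := by
      rw [h]
      exact hipos.trans_le (hle i)
    have h2 : j ∈ s := Finset.mem_filter.2 ⟨hsupp j h1, h.trans heu⟩
    exact absurd (hemax j h2) (not_le.2 hj)
  have hPe : P.coeff e ≠ 0 := mem_support_iff.1 hes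
  have hen : e ≤ P.natDegree := le_natDegree_of_mem_supp e hes
  -- the polynomial
  set L : K[X] := ∑ j ∈ Finset.range e, C (P.coeff j / P.coeff e) * X ^ j with hL
  have hLdeg : L.degree < e := by
    rw [degree_lt_iff_coeff_zero]
    intro m hm
    rw [hL, finsetSum_coeff]
    refine Finset.sum_eq_zero fun j hj => ?_
    rw [coeff_C_mul_X_pow, if_neg]
    have := Finset.mem_range.1 hj
    omega
  have hmonic : (X ^ e + L).Monic := monic_X_pow_add hLdeg
  have hnat : (X ^ e + L).natDegree = e := by
    rw [natDegree_add_eq_left_of_degree_lt (by rw [degree_X_pow]; exact hLdeg), natDegree_X_pow]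
  have hcoeff : ∀ j, (X ^ e + L).coeff j = if j ≤ e then P.coeff j / P.coeff e else 0 := by
    intro j
    rw [coeff_add, coeff_X_pow, hL, finsetSum_coeff]
    simp only [coeff_C_mul_X_pow]
    rcases lt_trichotomy j e with h | h | h
    · rw [if_neg h.ne, Finset.sum_ite_eq, if_pos (Finset.mem_range.2 h), if_pos h.le, zero_add]
    · subst h
      rw [if_pos rfl, Finset.sum_ite_eq, if_neg (by simp), if_pos le_rfl, add_zero,
        div_self hPe]
    · rw [if_neg h.ne', Finset.sum_ite_eq, if_neg (by simp; omega), if_neg (by omega), zero_add]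
  have hwe : 0 < w (algebraMap K Ω (P.coeff e)) :=
    hw.pos fun h => hPe ((map_eq_zero _).1 h)
  -- the value
  set T : Ω := ∑ j ∈ Finset.range (e + 1), algebraMap K Ω (P.coeff j) * B ^ j with hT
  have hval : aeval B (X ^ e + L) = T / algebraMap K Ω (P.coeff e) := by
    rw [aeval_eq_sum_range, hnat, hT, Finset.sum_div]
    refine Finset.sum_congr rfl fun j hj => ?_
    rw [hcoeff, if_pos (by have := Finset.mem_range.1 hj; omega), Algebra.smul_def, map_div₀,
      div_mul_eq_mul_div]
  have hPB : aeval B P = T + ∑ j ∈ Finset.Ico (e + 1) (P.natDegree + 1),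
      algebraMap K Ω (P.coeff j) * B ^ j := by
    rw [aeval_eq_sum_range, hT, Finset.range_eq_Ico, Finset.range_eq_Ico,
      Finset.sum_Ico_consecutive _ (Nat.zero_le _) (by omega)]
    exact Finset.sum_congr rfl fun j _ => Algebra.smul_def _ _
  have hue : 0 < u e := hipos.trans_le (hle i)
  have hrest : w (∑ j ∈ Finset.Ico (e + 1) (P.natDegree + 1),
      algebraMap K Ω (P.coeff j) * B ^ j) < u e := by
    refine hw.sum_lt hue fun j hj => ?_
    rw [hw.mul, hw.pow]
    exact hlt j (by have := (Finset.mem_Ico.1 hj).1; omega)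
  have hTlt : w T < u e := by
    have h1 : T = aeval B P - ∑ j ∈ Finset.Ico (e + 1) (P.natDegree + 1),
        algebraMap K Ω (P.coeff j) * B ^ j := by
      rw [hPB, add_sub_cancel_right]
    rw [h1]
    exact (hw.sub _ _).trans_lt (max_lt (hi.trans_le (hle i)) hrest)
  refine ⟨X ^ e + L, ⟨hmonic, fun j => ?_, ?_⟩, by rw [hnat]; exact hen⟩
  · rw [hnat, hcoeff]
    split_ifs with h
    · rw [map_div₀, hw.div, div_mul_eq_mul_div, div_le_iff₀ hwe, mul_comm (w B ^ e)]
      exact hle j
    · rw [map_zero, hw.zero, zero_mul]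
      exact pow_nonneg hb.le _
  · rw [hnat, hval, hw.div, div_lt_iff₀ hwe, mul_comm]
    exact hTlt

/-- the value of a derivation at the value of a polynomial -/
private lemma inv_deriv (D : Derivation ℤ Ω Ω) (β : Ω) (P : K[X]) :
    D (aeval β P) = ∑ j ∈ Finset.range (P.natDegree + 1), β ^ j * D (algebraMap K Ω (P.coeff j)) +
      aeval β (derivative P) * D β := by
  have h1 : ∀ n : ℕ, P.natDegree < n → D (aeval β P) =
      ∑ j ∈ Finset.range n, β ^ j * D (algebraMap K Ω (P.coeff j)) +
      (∑ j ∈ Finset.range n, algebraMap K Ω (P.coeff j) * (j * β ^ (j - 1))) * D β := by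
    intro n hn
    rw [aeval_eq_sum_range' hn, map_sum, Finset.sum_mul, ← Finset.sum_add_distrib]
    refine Finset.sum_congr rfl fun j _ => ?_
    rw [Algebra.smul_def, Derivation.leibniz, Derivation.leibniz_pow]
    simp only [smul_eq_mul, nsmul_eq_mul]
    ring
  rw [h1 _ (Nat.lt_succ_self _)]
  congr 2
  conv_rhs => rw [P.as_sum_range_C_mul_X_pow]
  rw [derivative_sum, map_sum]
  refine Finset.sum_congr rfl fun j _ => ?_
  rw [derivative_C_mul_X_pow, map_mul, aeval_C, map_pow, aeval_X, map_mul, map_natCast]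
  ring

/-- the core of the proof: one more element -/
private lemma inv_core [IsAlgClosed Ω] (hw : NAbs w) (D : Derivation ℤ Ω Ω) {c : ℝ}
    (hc : ∀ x : K, w (D (algebraMap K Ω x)) ≤ c * w (algebraMap K Ω x)) {B : Ω}
    (hint : IsIntegral K B) (hB : ∀ a : K, B ≠ algebraMap K Ω a)
    (hmin : ∀ a : K, w B ≤ w (B - algebraMap K Ω a)) :
    ∃ β : Ω, (∀ a : K, β ≠ algebraMap K Ω a) ∧ IsIntegral K β ∧
      ∀ x ∈ IntermediateField.adjoin K {β}, w (D x) ≤ c * w x := by
  classical
  have hB0 : B ≠ 0 := fun h => hB 0 (by rw [h, map_zero])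
  have hb : 0 < w B := hw.pos hB0
  have hc0 : 0 ≤ c := by
    have h1 := hc 1
    rw [map_one, hw.one, mul_one, Derivation.map_one_eq_zero, hw.zero] at h1
    exact h1
  -- a good polynomial of least degree
  have hex : ∃ n : ℕ, ∃ R : K[X], InvGd w B R ∧ R.natDegree = n := by
    have h1 : w (aeval B (minpoly K B)) <
        w (algebraMap K Ω ((minpoly K B).coeff (minpoly K B).natDegree)) *
          w B ^ (minpoly K B).natDegree := by
      rw [minpoly.aeval, hw.zero, coeff_natDegree, (minpoly.monic hint).leadingCoeff, map_one,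
        hw.one, one_mul]
      exact pow_pos hb _
    obtain ⟨R, hR, -⟩ := inv_cut hw hB0 _ h1
    exact ⟨_, R, hR, rfl⟩
  obtain ⟨Q, hQ, hQn⟩ := Nat.find_spec hex
  have hQmin : ∀ R : K[X], InvGd w B R → Q.natDegree ≤ R.natDegree := by
    intro R hR
    rw [hQn]
    exact Nat.find_min' hex ⟨R, hR, rfl⟩
  obtain ⟨hQm, hQc, hQv⟩ := hQ
  set q : ℕ := Q.natDegree with hq
  -- orthogonality
  have horth : ∀ P : K[X], P.natDegree < q → ∀ i,
      w (algebraMap K Ω (P.coeff i)) * w B ^ i ≤ w (aeval B P) := by
    intro P hP i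
    by_contra hlt
    push Not at hlt
    obtain ⟨R, hR, hRP⟩ := inv_cut hw hB0 P hlt
    have := hQmin R hR
    omega
  have hq2 : 2 ≤ q := by
    by_contra hlt
    push Not at hlt
    have h01 : q = 0 ∨ q = 1 := by omega
    rcases h01 with h | h
    · have h1 : Q = 1 := eq_one_of_monic_natDegree_zero hQm (hq ▸ h)
      rw [h, h1, map_one, hw.one, pow_zero] at hQv
      exact lt_irrefl _ hQv
    · have h1 : Q = X + C (Q.coeff 0) := by
        have h2 : Q.natDegree = 1 := hq ▸ h
        conv_lhs => rw [hQm.as_sum]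
        rw [h2]
        simp
      rw [h, pow_one] at hQv
      have h3 := hmin (-(Q.coeff 0))
      have h4 : aeval B Q = B - algebraMap K Ω (-(Q.coeff 0)) := by
        conv_lhs => rw [h1]
        rw [map_add, aeval_X, aeval_C, map_neg, sub_neg_eq_add]
      rw [h4] at hQv
      exact absurd h3 (not_le.2 hQv)
  -- a root near `B`
  obtain ⟨β, hβ, hβB⟩ : ∃ β : Ω, aeval β Q = 0 ∧ w (B - β) < w B := by
    have hsplit := IsAlgClosed.splits (Q.map (algebraMap K Ω))
    have h1 : Q.map (algebraMap K Ω) =
        ((Q.map (algebraMap K Ω)).roots.map fun a => X - C a).prod :=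
      hsplit.eq_prod_roots_of_monic (hQm.map _)
    by_contra hcon
    push Not at hcon
    have hroot : ∀ a ∈ (Q.map (algebraMap K Ω)).roots, w B ≤ w (B - a) := by
      intro a ha
      apply hcon
      have h2 := (mem_roots'.1 ha).2
      rwa [IsRoot.def, eval_map_algebraMap] at h2
    have h3 : aeval B Q = ((Q.map (algebraMap K Ω)).roots.map fun a => B - a).prod := by
      rw [← eval_map_algebraMap]
      conv_lhs => rw [h1]
      rw [eval_multiset_prod, Multiset.map_map]
      simp
    have h4 : ∀ s : Multiset Ω, (∀ a ∈ s, w B ≤ w (B - a)) →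
        w B ^ s.card ≤ w (s.map fun a => B - a).prod := by
      intro s
      induction s using Multiset.induction_on with
      | empty => intro _; simp [hw.one]
      | cons a s ih =>
        intro hs
        rw [Multiset.map_cons, Multiset.prod_cons, Multiset.card_cons, pow_succ', hw.mul]
        exact mul_le_mul (hs a (Multiset.mem_cons_self a s))
          (ih fun a' ha' => hs a' (Multiset.mem_cons_of_mem ha')) (pow_nonneg hb.le _)
          (hw.nonneg _)
    have h5 := h4 _ hroot
    rw [← h3] at h5
    have h6 : (Q.map (algebraMap K Ω)).roots.card = q := by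
      rw [← hsplit.natDegree_eq_card_roots, natDegree_map]
    rw [h6] at h5
    exact absurd h5 (not_le.2 hQv)
  have hwβ : w β = w B := by
    have h1 : β = B - (B - β) := by ring
    rw [h1]
    exact hw.sub_eq_left hβB
  have hβB' : w (β - B) < w B := by rwa [hw.sub_comm]
  -- orthogonality at the root
  have horth' : ∀ P : K[X], P.natDegree < q → ∀ i,
      w (algebraMap K Ω (P.coeff i)) * w B ^ i ≤ w (aeval β P) := by
    intro P hP i
    have h1 := horth P hP
    rcases (hw.nonneg (aeval B P)).eq_or_lt with h0 | h0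
    · refine le_trans ?_ (hw.nonneg _)
      rw [h0]
      exact h1 i
    have h2 : w (aeval β P - aeval B P) < w (aeval B P) := by
      rw [aeval_eq_sum_range, aeval_eq_sum_range, ← Finset.sum_sub_distrib,
        ← aeval_eq_sum_range]
      refine hw.sum_lt h0 fun j _ => ?_
      rw [Algebra.smul_def, Algebra.smul_def, ← mul_sub, hw.mul]
      by_cases hPj : P.coeff j = 0
      · rw [hPj, map_zero, hw.zero, zero_mul]
        exact h0
      have hPj' : 0 < w (algebraMap K Ω (P.coeff j)) :=
        hw.pos fun h => hPj ((map_eq_zero _).1 h)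
      refine lt_of_lt_of_le ?_ (h1 j)
      refine mul_lt_mul_of_pos_left ?_ hPj'
      rcases Nat.eq_zero_or_pos j with rfl | hj
      · simp [hw.zero]
      rw [← (Commute.all β B).mul_geom_sum₂, hw.mul]
      have h3 : w (∑ i ∈ Finset.range j, β ^ i * B ^ (j - 1 - i)) ≤ w B ^ (j - 1) := by
        refine hw.sum_le (pow_nonneg hb.le _) fun i hi => ?_
        have hi' := Finset.mem_range.1 hi
        rw [hw.mul, hw.pow, hw.pow, hwβ, ← pow_add]
        exact le_of_eq (by congr 1; omega)
      calc w (β - B) * w (∑ i ∈ Finset.range j, β ^ i * B ^ (j - 1 - i))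
          ≤ w (β - B) * w B ^ (j - 1) := mul_le_mul_of_nonneg_left h3 (hw.nonneg _)
        _ < w B * w B ^ (j - 1) := mul_lt_mul_of_pos_right hβB' (pow_pos hb _)
        _ = w B ^ j := by rw [← pow_succ']; congr 1; omega
    have h4 : w (aeval β P) = w (aeval B P) := by
      have h5 : aeval β P = (aeval β P - aeval B P) + aeval B P := by ring
      rw [h5]
      exact hw.add_eq_right h2
    rw [h4]
    exact h1 i
  have hβint : IsIntegral K β := ⟨Q, hQm, by rw [← aeval_def]; exact hβ⟩
  -- the derivative of the root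
  have hDsum : ∀ (P : K[X]) (C : ℝ), (∀ i, w (algebraMap K Ω (P.coeff i)) * w B ^ i ≤ C) →
      w (∑ j ∈ Finset.range (P.natDegree + 1), β ^ j * D (algebraMap K Ω (P.coeff j))) ≤
        c * C := by
    intro P C hP
    have hC0 : 0 ≤ C := le_trans (mul_nonneg (hw.nonneg _) (pow_nonneg hb.le _)) (hP 0)
    refine hw.sum_le (mul_nonneg hc0 hC0) fun j _ => ?_
    rw [hw.mul, hw.pow, hwβ]
    calc w B ^ j * w (D (algebraMap K Ω (P.coeff j)))
        ≤ w B ^ j * (c * w (algebraMap K Ω (P.coeff j))) :=
          mul_le_mul_of_nonneg_left (hc _) (pow_nonneg hb.le _)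
      _ = c * (w (algebraMap K Ω (P.coeff j)) * w B ^ j) := by ring
      _ ≤ c * C := mul_le_mul_of_nonneg_left (hP j) hc0
  have hQ' : w B ^ (q - 1) ≤ w (aeval β (derivative Q)) := by
    have h1 := horth' (derivative Q) (lt_of_le_of_lt (natDegree_derivative_le Q) (by omega))
      (q - 1)
    rw [coeff_derivative] at h1
    have h2 : q - 1 + 1 = q := by omega
    have h3 : Q.coeff (q - 1 + 1) = 1 := by rw [h2]; exact hQm.coeff_natDegree
    rw [h3, one_mul] at h1
    have h4 : algebraMap K Ω (((q - 1 : ℕ) : K) + 1) = ((q : ℕ) : Ω) := by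
      rw [map_add, map_natCast, map_one, ← Nat.cast_succ, Nat.succ_eq_add_one, h2]
    rw [h4, hw.nat q (by omega), one_mul] at h1
    exact h1
  have hDβ : w (D β) ≤ c * w B := by
    have h1 := inv_deriv D β Q
    rw [hβ, map_zero] at h1
    have h2 : aeval β (derivative Q) * D β =
        -∑ j ∈ Finset.range (Q.natDegree + 1), β ^ j * D (algebraMap K Ω (Q.coeff j)) := by
      rw [eq_neg_iff_add_eq_zero, add_comm]
      exact h1.symm
    have h3 : w (aeval β (derivative Q) * D β) ≤ c * w B ^ q := by
      rw [h2, hw.neg]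
      exact hDsum Q _ hQc
    rw [hw.mul] at h3
    have h4 : w B ^ (q - 1) * w (D β) ≤ c * w B ^ q :=
      (mul_le_mul_of_nonneg_right hQ' (hw.nonneg _)).trans h3
    have h5 : c * w B ^ q = w B ^ (q - 1) * (c * w B) := by
      have h6 : w B ^ q = w B ^ (q - 1) * w B := by
        rw [← pow_succ]
        congr 1
        omega
      rw [h6]
      ring
    rw [h5] at h4
    exact le_of_mul_le_mul_left h4 (pow_pos hb _)
  refine ⟨β, fun a ha => ?_, hβint, fun x hx => ?_⟩
  · have h1 := hmin a
    rw [← ha] at h1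
    exact absurd h1 (not_le.2 hβB)
  · -- the elements of the field
    obtain ⟨P, hP, rfl⟩ : ∃ P : K[X], P.natDegree < q ∧ aeval β P = x := by
      rw [← IntermediateField.mem_toSubalgebra,
        IntermediateField.adjoin_simple_toSubalgebra_of_isAlgebraic hβint.isAlgebraic,
        Algebra.adjoin_singleton_eq_range_aeval] at hx
      obtain ⟨P, rfl⟩ := hx
      refine ⟨P %ₘ Q, ?_, aeval_modByMonic_eq_self_of_root hβ⟩
      exact natDegree_modByMonic_lt P hQm (by
        intro h
        rw [h, natDegree_one] at hq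
        omega)
    have h1 := horth' P hP
    rw [inv_deriv]
    refine (hw.add _ _).trans (max_le (hDsum P _ h1) ?_)
    rw [hw.mul]
    have h2 : w (aeval β (derivative P)) * w B ≤ w (aeval β P) := by
      rw [← hw.mul, aeval_eq_sum_range, Finset.sum_mul]
      refine hw.sum_le (hw.nonneg _) fun j _ => ?_
      rw [Algebra.smul_def, coeff_derivative, hw.mul, hw.mul, hw.pow, hwβ, map_mul, hw.mul]
      have h3 : w (algebraMap K Ω ((j : K) + 1)) = 1 := by
        rw [map_add, map_natCast, map_one, ← Nat.cast_succ]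
        exact hw.nat _ (Nat.succ_ne_zero j)
      rw [h3, mul_one, mul_assoc, ← pow_succ]
      exact h1 (j + 1)
    calc w (aeval β (derivative P)) * w (D β)
        ≤ w (aeval β (derivative P)) * (c * w B) :=
          mul_le_mul_of_nonneg_left hDβ (hw.nonneg _)
      _ = c * (w (aeval β (derivative P)) * w B) := by ring
      _ ≤ c * w (aeval β P) := mul_le_mul_of_nonneg_left h2 hc0

end Core

/-- **Tame derivations, invariant case.** -/
theorem tame_of_invariant {F Ω : Type*} [Field F] [Field Ω] [Algebra F Ω] [IsAlgClosed Ω]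
    [Algebra.IsAlgebraic F Ω] {w : Ω → ℝ} (hw : NAbs w)
    (hinv : ∀ (σ : Ω ≃ₐ[F] Ω) (x : Ω), w (σ x) = w x) (D : Derivation ℤ Ω Ω) {c : ℝ}
    (hc : ∀ x : F, w (D (algebraMap F Ω x)) ≤ c * w (algebraMap F Ω x)) :
    ∀ x, w (D x) ≤ c * w x := by
  classical
  let S : Set (IntermediateField F Ω) := {M | ∀ x ∈ M, w (D x) ≤ c * w x}
  obtain ⟨M, hM⟩ : ∃ M, Maximal (· ∈ S) M := by
    refine zorn_le₀ S fun C hCS hC => ?_
    rcases C.eq_empty_or_nonempty with rfl | hne
    · refine ⟨⊥, ?_, by simp⟩
      intro x hx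
      obtain ⟨a, rfl⟩ := IntermediateField.mem_bot.1 hx
      exact hc a
    · have : Nonempty C := hne.to_subtype
      refine ⟨⨆ M : C, M.1, ?_, fun M hM => le_iSup (fun M : C => M.1) ⟨M, hM⟩⟩
      intro x hx
      have hdir : Directed (· ≤ ·) fun M : C => M.1 := hC.directedOn.directed_val
      rw [← SetLike.mem_coe, IntermediateField.coe_iSup_of_directed hdir, Set.mem_iUnion] at hx
      obtain ⟨M, hM⟩ := hx
      exact hCS M.2 x hM
  by_contra hcon
  push Not at hcon
  obtain ⟨B, hBc⟩ := hcon
  have hBM : B ∉ M := fun h => absurd (hM.prop B h) (not_le.2 hBc)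
  have halg : Algebra.IsAlgebraic M Ω := Algebra.IsAlgebraic.tower_top (K := F) M
  have hcl : IsAlgClosure M Ω := ⟨inferInstance, halg⟩
  have hnor : Normal M Ω := IsAlgClosure.normal M Ω
  have hint : IsIntegral M B := (halg.isAlgebraic B).isIntegral
  have hconj : ∀ r : Ω, aeval r (minpoly M B) = 0 → ∀ a : M,
      w (r - algebraMap M Ω a) = w (B - algebraMap M Ω a) := by
    intro r hr a
    obtain ⟨σ, hσ⟩ := isConjRoot_iff_exists_algEquiv.1 (isConjRoot_of_aeval_eq_zero hint hr)
    have h1 := hinv (σ.restrictScalars F) (r - algebraMap M Ω a)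
    have h2 : (σ.restrictScalars F) (r - algebraMap M Ω a) = B - algebraMap M Ω a := by
      show σ (r - algebraMap M Ω a) = _
      rw [map_sub, hσ, AlgEquiv.commutes]
    rw [← h1, h2]
  -- the mean of the conjugates
  have hsplit := IsAlgClosed.splits ((minpoly M B).map (algebraMap M Ω))
  set s : Multiset Ω := ((minpoly M B).map (algebraMap M Ω)).roots with hs
  have hcard : s.card = (minpoly M B).natDegree := by
    rw [hs, ← hsplit.natDegree_eq_card_roots, natDegree_map]
  have hn0 : s.card ≠ 0 := by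
    rw [hcard]
    exact (minpoly.natDegree_pos hint).ne'
  have hsroot : ∀ r ∈ s, aeval r (minpoly M B) = 0 := by
    intro r hr
    have h2 := (mem_roots'.1 hr).2
    rwa [IsRoot.def, eval_map_algebraMap] at h2
  have hsum : s.sum = algebraMap M Ω (-(minpoly M B).nextCoeff) := by
    have h1 := hsplit.nextCoeff_eq_neg_sum_roots_of_monic ((minpoly.monic hint).map _)
    rw [nextCoeff_map (algebraMap M Ω).injective] at h1
    rw [map_neg, h1, neg_neg]
  have hchar : CharZero Ω := hw.charZero
  have hnΩ : (s.card : Ω) ≠ 0 := Nat.cast_ne_zero.2 hn0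
  obtain ⟨m, hm⟩ : ∃ m : M, algebraMap M Ω m = s.sum / s.card :=
    ⟨-(minpoly M B).nextCoeff / s.card, by rw [map_div₀, map_natCast, ← hsum]⟩
  have hmean : ∀ a : M, w (algebraMap M Ω m - algebraMap M Ω a) ≤ w (B - algebraMap M Ω a) := by
    intro a
    have h1 : ∀ t : Multiset Ω, (∀ r ∈ t, aeval r (minpoly M B) = 0) →
        w (t.sum - t.card * algebraMap M Ω a) ≤ w (B - algebraMap M Ω a) := by
      intro t
      induction t using Multiset.induction_on with
      | empty =>
        intro _
        simp only [Multiset.sum_zero, Multiset.card_zero, Nat.cast_zero, zero_mul, sub_zero,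
          hw.zero]
        exact hw.nonneg _
      | cons r t ih =>
        intro ht
        have h2 : (r ::ₘ t).sum - (r ::ₘ t).card * algebraMap M Ω a =
            (r - algebraMap M Ω a) + (t.sum - t.card * algebraMap M Ω a) := by
          rw [Multiset.sum_cons, Multiset.card_cons, Nat.cast_succ]
          ring
        rw [h2]
        refine (hw.add _ _).trans (max_le ?_ (ih fun r' hr' => ht r' (Multiset.mem_cons_of_mem hr')))
        exact (hconj r (ht r (Multiset.mem_cons_self r t)) a).le
    have h3 : algebraMap M Ω m - algebraMap M Ω a =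
        (s.sum - s.card * algebraMap M Ω a) / s.card := by
      rw [hm]
      field_simp
    rw [h3, hw.div, hw.nat _ hn0, div_one]
    exact h1 s hsroot
  -- apply the core
  obtain ⟨β, hβM, -, hβ⟩ := inv_core (K := M) hw D (c := c)
    (fun x => hM.prop _ x.2) (B := B - algebraMap M Ω m) (hint.sub isIntegral_algebraMap)
    (fun a ha => hBM (by
      have h1 : B = algebraMap M Ω (a + m) := by
        rw [map_add, ← ha]
        ring
      rw [h1]
      exact (a + m).2))
    (fun a => by
      have h1 : w (B - algebraMap M Ω m) ≤ w (B - algebraMap M Ω (a + m)) := by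
        have h2 : B - algebraMap M Ω m = (B - algebraMap M Ω (a + m)) -
            (algebraMap M Ω m - algebraMap M Ω (a + m)) := by ring
        rw [h2]
        exact (hw.sub _ _).trans (max_le le_rfl (hmean (a + m)))
      have h3 : B - algebraMap M Ω m - algebraMap M Ω a = B - algebraMap M Ω (a + m) := by
        rw [map_add]
        ring
      rw [h3]
      exact h1)
  have hle : (IntermediateField.adjoin M {β}).restrictScalars F ≤ M := by
    refine hM.2 (fun x hx => hβ x hx) fun x hx => ?_
    exact (IntermediateField.adjoin M {β}).algebraMap_mem ⟨x, hx⟩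
  exact hβM ⟨β, hle (IntermediateField.mem_adjoin_simple_self M β)⟩ rfl

end Pool.Agent.DAE
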