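import Pool.Agent.DAE.X.DExt
import Pool.Agent.DAE.X.DCompl
import Pool.Agent.DAE.X.Invariant

/-!
# Algebraically closed valued extensions with all tame derivations
-/

set_option autoImplicit false

namespace Pool.Agent.DAE

universe u

/-- the trivial absolute value -/
private lemma closure_triv {Ω : Type u} [Field Ω] [CharZero Ω] {w : Ω → ℝ} (h0 : w 0 = 0)
    (h1 : ∀ x, x ≠ 0 → w x = 1) : NAbs w := by
  have hle : ∀ x, w x ≤ 1 := by
    intro x
    rcases eq_or_ne x 0 with rfl | hx
    · rw [h0]
      exact zero_le_one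
    · exact (h1 x hx).le
  refine ⟨fun x => ?_, fun x hx => ?_, h0, fun x y => ?_, fun x y => ?_, fun n hn => ?_⟩
  · rcases eq_or_ne x 0 with rfl | hx
    · exact h0.ge
    · rw [h1 x hx]
      exact zero_le_one
  · by_contra h
    rw [h1 x h] at hx
    exact one_ne_zero hx
  · rcases eq_or_ne x 0 with rfl | hx
    · rw [zero_mul, h0, zero_mul]
    rcases eq_or_ne y 0 with rfl | hy
    · rw [mul_zero, h0, mul_zero]
    rw [h1 x hx, h1 y hy, h1 _ (mul_ne_zero hx hy), mul_one]
  · rcases eq_or_ne x 0 with rfl | hx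
    · rw [zero_add]
      exact le_max_right _ _
    · rw [h1 x hx]
      exact (hle _).trans (le_max_left _ _)
  · exact h1 _ (Nat.cast_ne_zero.2 hn)

/-- the case of the trivial absolute value -/
private lemma closure_case_triv {F : Type u} [Field F] {v : F → ℝ} (hv : NAbs v)
    (hnt : ∀ x, v x ≤ 1) :
    ∃ (Ω : Type u) (_ : Field Ω) (_ : IsAlgClosed Ω) (_ : Algebra F Ω) (w : Ω → ℝ),
      NAbs w ∧ (∀ x, w (algebraMap F Ω x) = v x) ∧
      ∀ (D : Derivation ℤ F F) (c : ℝ), (∀ x, v (D x) ≤ c * v x) →
        ∃ D' : Derivation ℤ Ω Ω, (∀ x, D' (algebraMap F Ω x) = algebraMap F Ω (D x)) ∧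
          ∀ x, w (D' x) ≤ c * w x := by
  classical
  have hcz : CharZero F := hv.charZero
  have hv1 : ∀ x, x ≠ 0 → v x = 1 := by
    intro x hx
    refine le_antisymm (hnt x) ?_
    have h1 := hnt x⁻¹
    rw [hv.inv] at h1
    exact (inv_le_one₀ (hv.pos hx)).1 h1
  have hcz' : CharZero (AlgebraicClosure F) :=
    charZero_of_injective_algebraMap (algebraMap F (AlgebraicClosure F)).injective
  let w : AlgebraicClosure F → ℝ := fun y => if y = 0 then 0 else 1
  have hw0 : w 0 = 0 := if_pos rfl
  have hw1 : ∀ x, x ≠ 0 → w x = 1 := fun x hx => if_neg hx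
  have hw : NAbs w := closure_triv hw0 hw1
  refine ⟨AlgebraicClosure F, inferInstance, inferInstance, inferInstance, w, hw, fun x => ?_,
    fun D c hc => ?_⟩
  · rcases eq_or_ne x 0 with rfl | hx
    · rw [map_zero, hw0, hv.zero]
    · rw [hv1 x hx, hw1]
      exact (map_ne_zero_iff _ (algebraMap F (AlgebraicClosure F)).injective).2 hx
  · have hc0 : 0 ≤ c := by
      have h1 := hc 1
      rw [hv.one, mul_one] at h1
      exact (hv.nonneg _).trans h1
    rcases le_or_gt 1 c with h1c | hc1
    · obtain ⟨D', hD'⟩ := exists_deriv_ext (L := AlgebraicClosure F) D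
      refine ⟨D', hD', fun x => ?_⟩
      rcases eq_or_ne x 0 with rfl | hx
      · rw [map_zero, hw0, mul_zero]
      · rw [hw1 x hx, mul_one]
        refine le_trans ?_ h1c
        rcases eq_or_ne (D' x) 0 with h | h
        · rw [h, hw0]
          exact zero_le_one
        · rw [hw1 _ h]
    · refine ⟨0, fun x => ?_, fun x => ?_⟩
      · have hDx : D x = 0 := by
          by_contra h
          have h1 := hc x
          rw [hv1 _ h] at h1
          have h2 : c * v x ≤ c * 1 := mul_le_mul_of_nonneg_left (hnt x) hc0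
          linarith
        rw [hDx, map_zero]
        rfl
      · change w 0 ≤ c * w x
        rw [hw0]
        exact mul_nonneg hc0 (hw.nonneg x)

/-- the case of a nontrivial absolute value -/
private lemma closure_case_nontriv {F : Type u} [Field F] {v : F → ℝ} (hv : NAbs v)
    (hnt : ∃ x, 1 < v x) :
    ∃ (Ω : Type u) (_ : Field Ω) (_ : IsAlgClosed Ω) (_ : Algebra F Ω) (w : Ω → ℝ),
      NAbs w ∧ (∀ x, w (algebraMap F Ω x) = v x) ∧
      ∀ (D : Derivation ℤ F F) (c : ℝ), (∀ x, v (D x) ≤ c * v x) →
        ∃ D' : Derivation ℤ Ω Ω, (∀ x, D' (algebraMap F Ω x) = algebraMap F Ω (D x)) ∧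
          ∀ x, w (D' x) ≤ c * w x := by
  have hczF : CharZero F := hv.charZero
  obtain ⟨C, nC, hC, hU, i, hi, hD⟩ := hv.exists_completion hnt
  have hczC : CharZero C := charZero_of_injective_ringHom i.injective
  obtain ⟨K, fK, aK, hK⟩ : ∃ (K : Type u) (_ : Field K) (_ : Algebra C K), IsAlgClosure C K :=
    ⟨AlgebraicClosure C, inferInstance, inferInstance, inferInstance⟩
  have hK1 : IsAlgClosed K := hK.isAlgClosed
  have hK2 : Algebra.IsAlgebraic C K := hK.isAlgebraic
  let aF : Algebra F K := ((algebraMap C K).comp i).toAlgebra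
  have hspec : ∀ x : F, spectralNorm C K (algebraMap F K x) = v x := by
    intro x
    have h1 : algebraMap F K x = algebraMap C K (i x) := rfl
    rw [h1, spectralNorm_extends, hi]
  have hw : NAbs (spectralNorm C K) := by
    refine ⟨fun x => spectralNorm_nonneg x, fun x hx => ?_, spectralNorm_zero, fun x y => ?_,
      fun x y => isNonarchimedean_spectralNorm x y, fun n hn => ?_⟩
    · by_contra h
      exact (spectralNorm_zero_lt h (Algebra.IsAlgebraic.isAlgebraic x)).ne' hx
    · exact map_mul (spectralMulAlgNorm C K) x y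
    · have h1 : (n : K) = algebraMap F K n := (map_natCast _ n).symm
      rw [h1, hspec, hv.nat n hn]
  have hinv : ∀ (σ : K ≃ₐ[C] K) (x : K), spectralNorm C K (σ x) = spectralNorm C K x :=
    fun σ x => (spectralNorm_eq_of_equiv σ x).symm
  refine ⟨K, fK, hK1, aF, spectralNorm C K, hw, hspec, fun D c hc => ?_⟩
  obtain ⟨D', hD1, hD2⟩ := hD D c hc
  obtain ⟨D'', hD3⟩ := exists_deriv_ext (L := K) D'
  refine ⟨D'', fun x => ?_, ?_⟩
  · have h1 : algebraMap F K x = algebraMap C K (i x) := rfl
    have h2 : algebraMap F K (D x) = algebraMap C K (i (D x)) := rfl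
    rw [h1, h2, hD3, hD1]
  · refine tame_of_invariant hw hinv D'' (c := c) fun x => ?_
    rw [hD3, spectralNorm_extends, spectralNorm_extends]
    exact hD2 x

/-- **Every valued field (residue characteristic 0) has an algebraically closed valued
extension to which all bounded derivations extend with the same bound.** -/
theorem NAbs.exists_closure {F : Type u} [Field F] {v : F → ℝ} (hv : NAbs v) :
    ∃ (Ω : Type u) (_ : Field Ω) (_ : IsAlgClosed Ω) (_ : Algebra F Ω) (w : Ω → ℝ),
      NAbs w ∧ (∀ x, w (algebraMap F Ω x) = v x) ∧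
      ∀ (D : Derivation ℤ F F) (c : ℝ), (∀ x, v (D x) ≤ c * v x) →
        ∃ D' : Derivation ℤ Ω Ω, (∀ x, D' (algebraMap F Ω x) = algebraMap F Ω (D x)) ∧
          ∀ x, w (D' x) ≤ c * w x := by
  by_cases h : ∃ x, 1 < v x
  · exact closure_case_nontriv hv h
  · push Not at h
    exact closure_case_triv hv h

end Pool.Agent.DAE
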