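import Mathlib

/-!
# Nonarchimedean absolute values of residue characteristic zero

`NAbs v` : `v : R → ℝ` is multiplicative, ultrametric, definite and trivial on the natural
numbers. This is the form of valuations used inside the blocks (multiplicative notation,
`v 0 = 0`, no exceptional cases).
-/

set_option autoImplicit false

namespace Pool.Agent.DAE

/-- a nonarchimedean absolute value with values in `ℝ`, trivial on `ℕ` -/
structure NAbs {R : Type*} [CommRing R] (v : R → ℝ) : Prop where
  nonneg : ∀ x, 0 ≤ v x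
  eq_zero : ∀ x, v x = 0 → x = 0
  zero : v 0 = 0
  mul : ∀ x y, v (x * y) = v x * v y
  add : ∀ x y, v (x + y) ≤ max (v x) (v y)
  nat : ∀ n : ℕ, n ≠ 0 → v (n : R) = 1

namespace NAbs

section Ring

variable {R : Type*} [CommRing R] {v : R → ℝ}

lemma one (hv : NAbs v) : v 1 = 1 := by
  simpa using hv.nat 1 one_ne_zero

lemma eq_zero_iff (hv : NAbs v) {x : R} : v x = 0 ↔ x = 0 :=
  ⟨hv.eq_zero x, fun h => h ▸ hv.zero⟩

lemma pos (hv : NAbs v) {x : R} (hx : x ≠ 0) : 0 < v x :=
  lt_of_le_of_ne (hv.nonneg x) fun h => hx (hv.eq_zero x h.symm)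

lemma ne_zero (hv : NAbs v) {x : R} (hx : x ≠ 0) : v x ≠ 0 := (hv.pos hx).ne'

lemma neg_one (hv : NAbs v) : v (-1) = 1 := by
  have h := hv.mul (-1) (-1)
  rw [neg_mul_neg, one_mul, hv.one] at h
  have h1 := hv.nonneg (-1)
  nlinarith

lemma neg (hv : NAbs v) (x : R) : v (-x) = v x := by
  rw [← neg_one_mul, hv.mul, hv.neg_one, one_mul]

lemma sub (hv : NAbs v) (x y : R) : v (x - y) ≤ max (v x) (v y) := by
  rw [sub_eq_add_neg, ← hv.neg y]
  exact hv.add x (-y)

lemma pow (hv : NAbs v) (x : R) (n : ℕ) : v (x ^ n) = v x ^ n := by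
  induction n with
  | zero => simp [hv.one]
  | succ n ih => rw [pow_succ, hv.mul, ih, pow_succ]

lemma nat_le (hv : NAbs v) (n : ℕ) : v (n : R) ≤ 1 := by
  rcases eq_or_ne n 0 with rfl | h
  · simp [hv.zero]
  · exact (hv.nat n h).le

lemma prod (hv : NAbs v) {ι : Type*} (s : Finset ι) (f : ι → R) :
    v (∏ i ∈ s, f i) = ∏ i ∈ s, v (f i) := by
  classical
  induction s using Finset.induction_on with
  | empty => simp [hv.one]
  | insert a s ha ih => rw [Finset.prod_insert ha, Finset.prod_insert ha, hv.mul, ih]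

/-- the ultrametric inequality for sums -/
lemma sum_le (hv : NAbs v) {ι : Type*} {s : Finset ι} {f : ι → R} {C : ℝ} (hC : 0 ≤ C)
    (h : ∀ i ∈ s, v (f i) ≤ C) : v (∑ i ∈ s, f i) ≤ C := by
  classical
  induction s using Finset.induction_on with
  | empty => simpa [hv.zero] using hC
  | insert a s ha ih =>
    rw [Finset.sum_insert ha]
    refine (hv.add _ _).trans (max_le (h _ (Finset.mem_insert_self _ _)) (ih fun i hi => ?_))
    exact h i (Finset.mem_insert_of_mem hi)

/-- the strict ultrametric inequality for sums -/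
lemma sum_lt (hv : NAbs v) {ι : Type*} {s : Finset ι} {f : ι → R} {C : ℝ} (hC : 0 < C)
    (h : ∀ i ∈ s, v (f i) < C) : v (∑ i ∈ s, f i) < C := by
  classical
  induction s using Finset.induction_on with
  | empty => simpa [hv.zero] using hC
  | insert a s ha ih =>
    rw [Finset.sum_insert ha]
    refine (hv.add _ _).trans_lt (max_lt (h _ (Finset.mem_insert_self _ _)) (ih fun i hi => ?_))
    exact h i (Finset.mem_insert_of_mem hi)

/-- the larger of two summands of different size wins -/
lemma add_eq_left (hv : NAbs v) {x y : R} (h : v y < v x) : v (x + y) = v x := by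
  refine le_antisymm ((hv.add x y).trans (max_le le_rfl h.le)) ?_
  by_contra hlt
  push Not at hlt
  have h1 := hv.sub (x + y) y
  rw [add_sub_cancel_right] at h1
  rcases le_max_iff.1 h1 with h1 | h1
  · exact absurd hlt (not_lt.2 h1)
  · exact absurd h (not_lt.2 h1)

lemma add_eq_right (hv : NAbs v) {x y : R} (h : v x < v y) : v (x + y) = v y := by
  rw [add_comm]
  exact hv.add_eq_left h

lemma sub_eq_left (hv : NAbs v) {x y : R} (h : v y < v x) : v (x - y) = v x := by
  rw [sub_eq_add_neg]
  exact hv.add_eq_left (by rwa [hv.neg])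

lemma sub_comm (hv : NAbs v) (x y : R) : v (x - y) = v (y - x) := by
  rw [← neg_sub, hv.neg]

/-- a sum with one dominating term -/
lemma sum_eq_of_dominated (hv : NAbs v) {ι : Type*} {s : Finset ι} {f : ι → R} {i : ι}
    (hi : i ∈ s) (h : ∀ j ∈ s, j ≠ i → v (f j) < v (f i)) : v (∑ j ∈ s, f j) = v (f i) := by
  classical
  rw [← Finset.add_sum_erase s f hi]
  rcases (s.erase i).eq_empty_or_nonempty with he | ⟨j0, hj0⟩
  · rw [he, Finset.sum_empty, add_zero]
  · have hpos : 0 < v (f i) :=
      lt_of_le_of_lt (hv.nonneg _) (h j0 (Finset.mem_of_mem_erase hj0) (Finset.ne_of_mem_erase hj0))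
    exact hv.add_eq_left (hv.sum_lt hpos fun j hj =>
      h j (Finset.mem_of_mem_erase hj) (Finset.ne_of_mem_erase hj))

lemma charZero (hv : NAbs v) : CharZero R := by
  refine charZero_of_inj_zero fun n hn => ?_
  by_contra h
  have := hv.nat n h
  rw [hn, hv.zero] at this
  exact zero_ne_one this

lemma nontrivial (hv : NAbs v) : Nontrivial R := by
  refine ⟨1, 0, fun h => ?_⟩
  have h1 := hv.one
  rw [h, hv.zero] at h1
  exact zero_ne_one h1

lemma noZeroDivisors (hv : NAbs v) : NoZeroDivisors R := by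
  refine ⟨fun {a b} h => ?_⟩
  have h1 := hv.mul a b
  rw [h, hv.zero] at h1
  rcases mul_eq_zero.1 h1.symm with h2 | h2
  · exact Or.inl (hv.eq_zero _ h2)
  · exact Or.inr (hv.eq_zero _ h2)

lemma isDomain (hv : NAbs v) : IsDomain R := by
  have := hv.nontrivial
  have := hv.noZeroDivisors
  exact NoZeroDivisors.to_isDomain R

/-- multiplication by a natural number does not matter -/
lemma nat_mul (hv : NAbs v) {n : ℕ} (hn : n ≠ 0) (x : R) : v (n * x) = v x := by
  rw [hv.mul, hv.nat n hn, one_mul]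

lemma nat_mul_le (hv : NAbs v) (n : ℕ) (x : R) : v (n * x) ≤ v x := by
  rw [hv.mul]
  exact mul_le_of_le_one_left (hv.nonneg x) (hv.nat_le n)

lemma comp (hv : NAbs v) {S : Type*} [CommRing S] (f : S →+* R) (hf : Function.Injective f) :
    NAbs fun x => v (f x) where
  nonneg x := hv.nonneg _
  eq_zero x h := (map_eq_zero_iff f hf).1 (hv.eq_zero _ h)
  zero := by rw [map_zero, hv.zero]
  mul x y := by rw [map_mul, hv.mul]
  add x y := by rw [map_add]; exact hv.add _ _
  nat n hn := by rw [map_natCast]; exact hv.nat n hn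

/-- the absolute value as an `AbsoluteValue` -/
noncomputable def toAbs (hv : NAbs v) : AbsoluteValue R ℝ where
  toFun := v
  map_mul' := hv.mul
  nonneg' := hv.nonneg
  eq_zero' x := ⟨hv.eq_zero x, fun h => h ▸ hv.zero⟩
  add_le' x y := (hv.add x y).trans (max_le_add_of_nonneg (hv.nonneg x) (hv.nonneg y))

@[simp] lemma toAbs_apply (hv : NAbs v) (x : R) : hv.toAbs x = v x := rfl

end Ring

section Field

variable {F : Type*} [Field F] {v : F → ℝ}

lemma inv (hv : NAbs v) (x : F) : v x⁻¹ = (v x)⁻¹ := by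
  rcases eq_or_ne x 0 with rfl | hx
  · simp [hv.zero]
  · refine eq_inv_of_mul_eq_one_left ?_
    rw [← hv.mul, inv_mul_cancel₀ hx, hv.one]

lemma div (hv : NAbs v) (x y : F) : v (x / y) = v x / v y := by
  rw [div_eq_mul_inv, hv.mul, hv.inv, div_eq_mul_inv]

lemma zpow (hv : NAbs v) (x : F) (n : ℤ) : v (x ^ n) = v x ^ n := by
  cases n with
  | ofNat n => simp [hv.pow]
  | negSucc n => rw [zpow_negSucc, zpow_negSucc, hv.inv, hv.pow]

end Field

end NAbs

end Pool.Agent.DAE
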